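import Pool.Agent.W579.FQ.Main
import Pool.Agent.H774R3.ScM

set_option autoImplicit false
open Set Topology Filter Metric Module
open Pool.Agent.H289R3.FQ Pool.Agent.H774R3

namespace Pool.Agent.W579.FQ

lemma sc_punctured3 : SimplyConnectedSpace {z : ℝ × ℂ // z ≠ 0} := by
  have h1 : SimplyConnectedSpace (sphere (0 : EuclideanSpace ℝ (Fin 3)) 1) :=
    Pool.Agent.Helper206.BoxS.Sph.simplyConnected_sphere (by simp)
  have h2 := sc_ioi
  have h3 := sc_prod (sphere (0 : EuclideanSpace ℝ (Fin 3)) 1) (Set.Ioi (0 : ℝ))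
  have h4 : SimplyConnectedSpace ({0}ᶜ : Set (EuclideanSpace ℝ (Fin 3))) :=
    (homeomorphUnitSphereProd (EuclideanSpace ℝ (Fin 3))).toHomotopyEquiv.simplyConnectedSpace
  have hfr : finrank ℝ (ℝ × ℂ) = finrank ℝ (EuclideanSpace ℝ (Fin 3)) := by
    rw [Module.finrank_prod]
    simp [Complex.finrank_real_complex]
  let e : (ℝ × ℂ) ≃L[ℝ] (EuclideanSpace ℝ (Fin 3)) := ContinuousLinearEquiv.ofFinrankEq hfr
  let e' : {z : ℝ × ℂ // z ≠ 0} ≃ₜ ({0}ᶜ : Set (EuclideanSpace ℝ (Fin 3))) :=
    e.toHomeomorph.subtype (fun z => by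
      simp)
  exact e'.toHomotopyEquiv.simplyConnectedSpace

/-- linear coordinates -/
noncomputable def co : EuclideanSpace ℝ (Fin 9) ≃L[ℝ] (Fin 3 → ℝ × ℂ) :=
  ContinuousLinearEquiv.ofFinrankEq (by
    rw [Module.finrank_pi_fintype]
    simp [Module.finrank_prod, Complex.finrank_real_complex])

/-- the cube of punctured three-space as an open subset of nine-space -/
def Cube : TopologicalSpace.Opens (EuclideanSpace ℝ (Fin 9)) where
  carrier := {x | ∀ i, co x i ≠ 0}
  is_open' := by
    have : {x : EuclideanSpace ℝ (Fin 9) | ∀ i, co x i ≠ 0} =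
        ⋂ i, {x : EuclideanSpace ℝ (Fin 9) | co x i ≠ 0} := by
      ext z
      simp
    rw [this]
    exact isOpen_iInter_of_finite fun j => isOpen_ne.preimage
      ((continuous_apply j).comp co.continuous)

instance : SimplyConnectedSpace Cube := by
  have h1 := sc_punctured3
  have h2 := sc_pi (fun _ : Fin 3 => {z : ℝ × ℂ // z ≠ 0})
  let e : Cube ≃ₜ (Fin 3 → {z : ℝ × ℂ // z ≠ 0}) :=
    { toFun := fun x => fun i => ⟨co x.1 i, x.2 i⟩
      invFun := fun x => ⟨co.symm (fun i => (x i).1), fun i => by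
        rw [co.apply_symm_apply]
        exact (x i).2⟩
      left_inv := fun x => by
        apply Subtype.ext
        exact co.symm_apply_apply x.1
      right_inv := fun x => by
        funext i
        apply Subtype.ext
        simp
      continuous_toFun := by
        refine continuous_pi fun i => ?_
        exact Continuous.subtype_mk
          ((continuous_apply i).comp (co.continuous.comp continuous_subtype_val)) _
      continuous_invFun := by
        refine Continuous.subtype_mk ?_ _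
        refine co.symm.continuous.comp (continuous_pi fun i => ?_)
        exact continuous_subtype_val.comp (continuous_apply i) }
  exact e.toHomotopyEquiv.simplyConnectedSpace

lemma eqv_orb {E : Type} {Φ : ℝ → E → E} (h0 : ∀ x, Φ 0 x = x)
    (ha : ∀ s t x, Φ (s + t) x = Φ s (Φ t x)) {r : E → E → Prop}
    (hr : ∀ x y, r x y ↔ ∃ t, Φ t x = y) {x y : E} (hxy : Quot.mk r x = Quot.mk r y) :
    ∃ t, Φ t x = y := by
  have h2 : Relation.EqvGen r x y := Quot.eqvGen_exact hxy
  clear hxy
  induction h2 with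
  | rel a b hab => exact (hr a b).1 hab
  | refl a => exact ⟨0, h0 a⟩
  | symm a b _ ih =>
    obtain ⟨t, ht⟩ := ih
    exact ⟨-t, by rw [← ht, ← ha, neg_add_cancel, h0]⟩
  | trans a b c _ _ ih1 ih2 =>
    obtain ⟨t, ht⟩ := ih1
    obtain ⟨s, hs⟩ := ih2
    exact ⟨s + t, by rw [ha, ht, hs]⟩

theorem tflow_of_rel {E Q : Type} [TopologicalSpace E] [TopologicalSpace Q] {Φ : ℝ → E → E}
    (hc : Continuous (fun p : ℝ × E => Φ p.1 p.2)) (h0 : ∀ x, Φ 0 x = x)
    (ha : ∀ s t x, Φ (s + t) x = Φ s (Φ t x)) {r : E → E → Prop}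
    (hr : ∀ x y, r x y ↔ ∃ t, Φ t x = y) (G : Quot r ≃ₜ Q) :
    TFlow Φ (fun x => G (Quot.mk r x)) where
  cont := hc
  zero := h0
  add := ha
  fcont := G.continuous.comp continuous_quot_mk
  fopen := by
    apply G.isOpenMap.comp
    intro O hO
    rw [isOpen_coinduced]
    have : Quot.mk r ⁻¹' (Quot.mk r '' O) = ⋃ t, (Φ t) ⁻¹' O := by
      ext x
      simp only [mem_preimage, mem_image, mem_iUnion]
      constructor
      · rintro ⟨y, hy, hyx⟩
        obtain ⟨t, ht⟩ := eqv_orb h0 ha hr hyx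
        exact ⟨-t, by rw [← ht, ← ha, neg_add_cancel, h0]; exact hy⟩
      · rintro ⟨t, ht⟩
        exact ⟨Φ t x, ht, (Quot.sound ((hr x (Φ t x)).2 ⟨t, rfl⟩)).symm⟩
    rw [this]
    exact isOpen_iUnion fun t => hO.preimage (hc.comp (continuous_const.prodMk continuous_id))
  fibre := by
    intro x y
    constructor
    · intro hxy
      exact eqv_orb h0 ha hr (G.injective hxy)
    · intro hxy
      exact congrArg G (Quot.sound ((hr x y).2 hxy))

/-- the values of the torus map -/
noncomputable def vv (y : Fin 5 → ℝ) : Fin 3 → ℝ × ℂ :=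
  ![HH (y 0) (y 1), HH (y 2) (y 4), HH (y 2) (y 3)]

lemma HH_comp {Z : Type*} [TopologicalSpace Z] {a b : Z → ℝ} (ha : Continuous a)
    (hb : Continuous b) : Continuous (fun y => HH (a y) (b y)) := by
  have h1 : Continuous (fun y => ((a y, b y) : ℝ × ℝ)) := ha.prodMk hb
  have h2 := HH_cont.comp h1
  exact h2

lemma vv_cont : Continuous vv := by
  have h : ∀ a b : Fin 5, Continuous (fun y : Fin 5 → ℝ => HH (y a) (y b)) := by
    intro a b
    apply HH_comp
    · exact continuous_apply a
    · exact continuous_apply b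
  have h0 := h 0 1
  have h1 := h 2 4
  have h2 := h 2 3
  rw [continuous_pi_iff]
  intro i
  fin_cases i
  · exact h0
  · exact h1
  · exact h2

lemma vv_ne (y : Fin 5 → ℝ) (i : Fin 3) : vv y i ≠ 0 := by
  fin_cases i
  · exact HH_ne _ _
  · exact HH_ne _ _
  · exact HH_ne _ _

lemma vv_per (y : Fin 5 → ℝ) (j : Fin 5) : vv (y + ee j) = vv y := by
  have h : ∀ a b : Fin 5, a ≠ b → HH ((y + ee j) a) ((y + ee j) b) = HH (y a) (y b) := by
    intro a b hab
    simp only [Pi.add_apply, ee]
    by_cases hj0 : j = a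
    · subst hj0
      have e1 : (Pi.single j 1 : Fin 5 → ℝ) b = 0 := by simp [Ne.symm hab]
      rw [Pi.single_eq_same, e1, add_zero, HH_left]
    · have e0 : (Pi.single j 1 : Fin 5 → ℝ) a = 0 := by simp [Ne.symm hj0]
      rw [e0, add_zero]
      by_cases hj1 : j = b
      · subst hj1
        rw [Pi.single_eq_same, HH_right]
      · have e1 : (Pi.single j 1 : Fin 5 → ℝ) b = 0 := by simp [Ne.symm hj1]
        rw [e1, add_zero]
  unfold vv
  rw [h 0 1 (by decide), h 2 4 (by decide), h 2 3 (by decide)]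

/-- the torus in the cube -/
noncomputable def torus (y : Fin 5 → ℝ) : Cube := ⟨co.symm (vv y), fun i => by
  rw [co.apply_symm_apply]
  exact vv_ne y i⟩

theorem no_quot (hTorus : TaskTorus) {E : Type} [NormedAddCommGroup E] [NormedSpace ℝ E]
    [ProperSpace E] {Φ : ℝ → E → E} (hc : Continuous (fun p : ℝ × E => Φ p.1 p.2))
    (h0 : ∀ x, Φ 0 x = x) (ha : ∀ s t x, Φ (s + t) x = Φ s (Φ t x)) {r : E → E → Prop}
    (hr : ∀ x y, r x y ↔ ∃ t, Φ t x = y) (G : Quot r ≃ₜ Cube) : False := by
  have h := tflow_of_rel hc h0 ha hr G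
  have hco : ∀ y, co (torus y).1 = vv y := fun y => co.apply_symm_apply _
  refine no_flow hTorus h (fun x => co x.1) (co.continuous.comp continuous_subtype_val)
    (fun n i => n.2 i) (e := torus) ?_ ?_ ?_ ?_ ?_ ?_
  · exact Continuous.subtype_mk (co.symm.continuous.comp vv_cont) _
  · intro y j
    apply Subtype.ext
    change co.symm (vv (y + ee j)) = co.symm (vv y)
    rw [vv_per]
  · intro y
    obtain ⟨x, hx⟩ := Quot.exists_rep (G.symm (torus y))
    exact ⟨x, by rw [hx, G.apply_symm_apply]⟩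
  · intro y
    rw [hco]
    rfl
  · intro y
    rw [hco]
    rfl
  · intro y
    rw [hco]
    rfl

end Pool.Agent.W579.FQ
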