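import Pool.Agent.W579.FQ.Hopf
import Pool.Agent.H289R3.FQ.Main

set_option autoImplicit false
open Set Topology Filter
open Pool.Agent.H289R3.FQ

namespace Pool.Agent.W579.FQ

/-- the exponential of period `1` -/
noncomputable def ex (x : ℝ) : ℂ := (Circle.exp (2 * Real.pi * x) : ℂ)

lemma ex_cont : Continuous ex := by
  unfold ex
  fun_prop

lemma ex_add (x y : ℝ) : ex (x + y) = ex x * ex y := by
  unfold ex
  rw [mul_add, Circle.exp_add, Circle.coe_mul]

lemma ex_int (n : ℤ) : ex n = 1 := by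
  unfold ex
  rw [mul_comm, Circle.exp_int_mul_two_pi, Circle.coe_one]

lemma ex_one : ex 1 = 1 := by
  have := ex_int 1
  simpa using this

lemma ex_zero : ex 0 = 1 := by
  have := ex_int 0
  simpa using this

lemma norm_ex (x : ℝ) : ‖ex x‖ = 1 := Circle.norm_coe _

lemma ex_ne (x : ℝ) : ex x ≠ 0 := Circle.coe_ne_zero _

lemma normSq_ex (x : ℝ) : Complex.normSq (ex x) = 1 := Circle.normSq_coe _

lemma conj_ex (x : ℝ) : (starRingEnd ℂ) (ex x) = ex (-x) := by
  have h1 : ex (-x) * ex x = 1 := by rw [← ex_add, neg_add_cancel, ex_zero]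
  have h2 : (starRingEnd ℂ) (ex x) * ex x = 1 := by
    rw [mul_comm, Complex.mul_conj, normSq_ex, Complex.ofReal_one]
  exact mul_right_cancel₀ (ex_ne x) (h2.trans h1.symm)

lemma ang_ex_mul (u : ℝ) {z : ℂ} (hz : z ≠ 0) : ang (ex u * z) = ang z + (u : T1) := by
  unfold ang
  rw [Homeomorph.symm_apply_eq, AddCircle.homeomorphCircle_apply, AddCircle.toCircle_add,
    ← AddCircle.homeomorphCircle_apply one_ne_zero, Homeomorph.apply_symm_apply]
  apply Circle.coe_injective
  have h1 : ∀ w : ℂ, w ≠ 0 → (Circle.exp (Complex.arg w) : ℂ) = w / ‖w‖ := by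
    intro w hw
    have hw' : (‖w‖ : ℂ) ≠ 0 := by simpa using hw
    rw [eq_div_iff hw', Circle.coe_exp, mul_comm]
    exact Complex.norm_mul_exp_arg_mul_I w
  have h2 : (AddCircle.toCircle ((u : ℝ) : T1) : ℂ) = ex u := by
    rw [AddCircle.toCircle_apply_mk]
    unfold ex
    simp
  rw [h1 _ (mul_ne_zero (ex_ne u) hz), Circle.coe_mul, h1 z hz, h2, norm_mul, norm_ex, one_mul]
  ring

/-- the periodic factor -/
noncomputable def eF (u t : ℝ) : ℂ := ex (u * t) * ((1 - t : ℝ) : ℂ) + ex (u * (t - 1)) * (t : ℂ)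

/-- a quasi-periodic function on the plane -/
noncomputable def f1 (u v : ℝ) : ℂ := ex (-(u * v)) * eF u (Int.fract v)

lemma f1_cont : Continuous (fun p : ℝ × ℝ => f1 p.1 p.2) := by
  unfold f1
  apply Continuous.mul
  · exact ex_cont.comp (by fun_prop)
  · apply ContinuousOn.comp_fract' (f := eF)
    · apply Continuous.continuousOn
      have h1 : Continuous (fun p : ℝ × ℝ => ex (p.1 * p.2)) := ex_cont.comp (by fun_prop)
      have h2 : Continuous (fun p : ℝ × ℝ => ex (p.1 * (p.2 - 1))) := ex_cont.comp (by fun_prop)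
      have : Function.uncurry eF = fun p : ℝ × ℝ =>
          ex (p.1 * p.2) * ((1 - p.2 : ℝ) : ℂ) + ex (p.1 * (p.2 - 1)) * (p.2 : ℂ) := rfl
      rw [this]
      fun_prop
    · intro s
      simp [eF, ex_zero]

lemma f1_add_one_right (u v : ℝ) : f1 u (v + 1) = ex (-u) * f1 u v := by
  unfold f1
  rw [Int.fract_add_one, ← mul_assoc, ← ex_add]
  congr 2
  ring

lemma eF_add_one (u t : ℝ) : eF (u + 1) t = ex t * eF u t := by
  unfold eF
  have h1 : ex ((u + 1) * t) = ex t * ex (u * t) := by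
    rw [← ex_add]
    congr 1
    ring
  have h2 : ex ((u + 1) * (t - 1)) = ex t * ex (u * (t - 1)) := by
    have h3 : (u + 1) * (t - 1) = t + u * (t - 1) + ((-1 : ℤ) : ℝ) := by
      push_cast
      ring
    rw [h3, ex_add, ex_int, mul_one, ex_add]
  rw [h1, h2]
  ring

lemma f1_add_one_left (u v : ℝ) : f1 (u + 1) v = f1 u v := by
  unfold f1
  rw [eF_add_one, ← mul_assoc, ← ex_add]
  congr 1
  have h3 : -((u + 1) * v) + Int.fract v = -(u * v) + ((-⌊v⌋ : ℤ) : ℝ) := by
    have := Int.fract_add_floor v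
    push_cast
    linarith
  rw [h3, ex_add, ex_int, mul_one]

lemma f1_zero {u v : ℝ} (h : f1 u v = 0) : Int.fract v = 1 / 2 := by
  unfold f1 at h
  rcases mul_eq_zero.1 h with h | h
  · exact absurd h (ex_ne _)
  · unfold eF at h
    have h1 : ex (u * Int.fract v) * ((1 - Int.fract v : ℝ) : ℂ) =
        -(ex (u * (Int.fract v - 1)) * ((Int.fract v : ℝ) : ℂ)) := eq_neg_of_add_eq_zero_left h
    have h2 := congrArg norm h1
    rw [norm_neg, norm_mul, norm_mul, norm_ex, norm_ex, Complex.norm_real, Complex.norm_real,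
      Real.norm_of_nonneg (by linarith [Int.fract_lt_one v]),
      Real.norm_of_nonneg (Int.fract_nonneg v)] at h2
    linarith

/-- the quasi-periodic non-vanishing pair -/
noncomputable def eta (u v : ℝ) : ℂ × ℂ := (f1 u v, f1 u (v - 1 / 2))

lemma eta_cont : Continuous (fun p : ℝ × ℝ => eta p.1 p.2) := by
  unfold eta
  exact f1_cont.prodMk (f1_cont.comp (by fun_prop : Continuous fun p : ℝ × ℝ => (p.1, p.2 - 1 / 2)))

lemma eta_left (u v : ℝ) : eta (u + 1) v = eta u v := by
  unfold eta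
  rw [f1_add_one_left, f1_add_one_left]

lemma eta_right (u v : ℝ) : eta u (v + 1) = (ex (-u) * (eta u v).1, ex (-u) * (eta u v).2) := by
  unfold eta
  have h : v + 1 - 1 / 2 = v - 1 / 2 + 1 := by ring
  rw [h, f1_add_one_right, f1_add_one_right]

lemma eta_ne (u v : ℝ) : eta u v ≠ 0 := by
  intro h
  have h1 : f1 u v = 0 := congrArg Prod.fst h
  have h2 : f1 u (v - 1 / 2) = 0 := congrArg Prod.snd h
  have h3 := f1_zero h1
  have h4 := f1_zero h2
  have h5 := Int.fract_add_floor v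
  have h6 := Int.fract_add_floor (v - 1 / 2)
  rw [h3] at h5
  rw [h4] at h6
  have h7 : ((⌊v⌋ : ℤ) : ℝ) - (⌊v - 1 / 2⌋ : ℤ) = 1 / 2 := by linarith
  have h8 : ((2 * (⌊v⌋ - ⌊v - 1 / 2⌋) : ℤ) : ℝ) = ((1 : ℤ) : ℝ) := by
    push_cast
    linarith
  have h9 : 2 * (⌊v⌋ - ⌊v - 1 / 2⌋) = 1 := by exact_mod_cast h8
  omega

lemma hopf_ex (x : ℝ) (s : ℂ × ℂ) : hopf (ex x * s.1, ex x * s.2) = hopf s := by
  unfold hopf
  simp only [Complex.normSq_mul, normSq_ex, one_mul, map_mul]
  refine Prod.ext rfl ?_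
  simp only
  have : (starRingEnd ℂ) (ex x) * ex x = 1 := by
    rw [mul_comm, Complex.mul_conj, normSq_ex, Complex.ofReal_one]
  linear_combination 2 * (starRingEnd ℂ) s.1 * s.2 * this

lemma hopf_ne {s : ℂ × ℂ} (hs : s ≠ 0) : hopf s ≠ 0 := by
  intro h
  have h1 := nm_hopf s
  rw [h, nm_zero] at h1
  have h2 := Complex.normSq_nonneg s.1
  have h3 := Complex.normSq_nonneg s.2
  have h4 : Complex.normSq s.1 = 0 := by linarith
  have h5 : Complex.normSq s.2 = 0 := by linarith
  exact hs (Prod.ext (Complex.normSq_eq_zero.1 h4) (Complex.normSq_eq_zero.1 h5))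

/-- the periodic map to the punctured three-space -/
noncomputable def HH (u v : ℝ) : ℝ × ℂ := hopf (eta u v)

lemma HH_cont : Continuous (fun p : ℝ × ℝ => HH p.1 p.2) := hopf_cont.comp eta_cont

lemma HH_ne (u v : ℝ) : HH u v ≠ 0 := hopf_ne (eta_ne u v)

lemma HH_left (u v : ℝ) : HH (u + 1) v = HH u v := by
  unfold HH
  rw [eta_left]

lemma HH_right (u v : ℝ) : HH u (v + 1) = HH u v := by
  unfold HH
  rw [eta_right, hopf_ex]

/-- hermitian product -/
noncomputable def pair (s t : ℂ × ℂ) : ℂ := (starRingEnd ℂ) s.1 * t.1 + (starRingEnd ℂ) s.2 * t.2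

lemma normSq_pair (s t : ℂ × ℂ) : 2 * Complex.normSq (pair s t) =
    nm (hopf s) * nm (hopf t) + dotp (hopf s) (hopf t) := by
  rw [nm_hopf, nm_hopf]
  unfold pair dotp hopf
  simp [Complex.normSq_apply]
  ring

lemma pair_ne {s t : ℂ × ℂ} (h : hopf s = hopf t) (hs : hopf s ≠ 0) : pair s t ≠ 0 := by
  intro h0
  have h1 := normSq_pair s t
  rw [h0, ← h] at h1
  have h2 := nm_pos hs
  have h3 := nm_sq (hopf s)
  unfold dotp at h1
  simp at h1
  nlinarith

/-- the angle between the lift and the quasi-periodic pair -/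
noncomputable def aa (s : ℂ × ℂ) (u v : ℝ) : T1 := ang (pair (eta u v) s)

lemma aa_left (s : ℂ × ℂ) (u v : ℝ) : aa s (u + 1) v = aa s u v := by
  unfold aa
  rw [eta_left]

lemma aa_right {s : ℂ × ℂ} {u v : ℝ} (h : hopf s = HH u v) :
    aa s u (v + 1) = aa s u v + (u : T1) := by
  unfold aa
  rw [eta_right, ← ang_ex_mul u (pair_ne (s := eta u v) (t := s) h.symm (HH_ne u v))]
  congr 1
  unfold pair
  simp only [map_mul, conj_ex, neg_neg]
  ring

lemma aa_cont {X : Type*} [TopologicalSpace X] {s : X → ℂ × ℂ} {u v : X → ℝ} (hs : Continuous s)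
    (hu : Continuous u) (hv : Continuous v) (h : ∀ x, hopf (s x) = HH (u x) (v x)) :
    Continuous (fun x => aa (s x) (u x) (v x)) := by
  rw [continuous_iff_continuousAt]
  intro x
  have h1 : Continuous (fun x => pair (eta (u x) (v x)) (s x)) := by
    have h2 : Continuous (fun x => eta (u x) (v x)) := eta_cont.comp (hu.prodMk hv)
    exact ((Complex.continuous_conj.comp (continuous_fst.comp h2)).mul (continuous_fst.comp hs)).add
      ((Complex.continuous_conj.comp (continuous_snd.comp h2)).mul (continuous_snd.comp hs))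
  exact ContinuousAt.comp (g := ang) (f := fun x => pair (eta (u x) (v x)) (s x))
    (ang_cont (pair_ne (h x).symm (HH_ne _ _))) h1.continuousAt

end Pool.Agent.W579.FQ
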