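import Pool.Agent.H289R3.FQ.Null

set_option autoImplicit false
open Set Topology Filter
open Pool.Agent.H289R3.FQ

namespace Pool.Agent.W579.FQ

/-- A continuous real flow `φ` on `Y` with open continuous quotient map `f`, whose fibres are the
orbits. -/
structure TFlow {Y N : Type*} [TopologicalSpace Y] [TopologicalSpace N] (φ : ℝ → Y → Y)
    (f : Y → N) : Prop where
  cont : Continuous (fun p : ℝ × Y => φ p.1 p.2)
  zero : ∀ y, φ 0 y = y
  add : ∀ s t y, φ (s + t) y = φ s (φ t y)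
  fcont : Continuous f
  fopen : IsOpenMap f
  fibre : ∀ x y, f x = f y ↔ ∃ t, φ t x = y

variable {Y N : Type*} [TopologicalSpace Y] [TopologicalSpace N] {φ : ℝ → Y → Y} {f : Y → N}

theorem TFlow.orbit_cont (h : TFlow φ f) (y : Y) : Continuous (fun t => φ t y) :=
  h.cont.comp (continuous_id.prodMk continuous_const)

theorem TFlow.time_cont (h : TFlow φ f) (t : ℝ) : Continuous (φ t) :=
  h.cont.comp (continuous_const.prodMk continuous_id)

theorem TFlow.f_flow (h : TFlow φ f) (t : ℝ) (y : Y) : f (φ t y) = f y :=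
  ((h.fibre y (φ t y)).2 ⟨t, rfl⟩).symm

theorem TFlow.fibre_eq (h : TFlow φ f) (y : Y) : f ⁻¹' {f y} = range (fun t => φ t y) := by
  ext z
  simp only [mem_preimage, mem_singleton_iff, mem_range]
  rw [eq_comm, h.fibre y z]

theorem TFlow.conn (h : TFlow φ f) (n : N) : IsPreconnected (f ⁻¹' {n}) := by
  by_cases hn : ∃ y, f y = n
  · obtain ⟨y, rfl⟩ := hn
    rw [h.fibre_eq]
    exact isPreconnected_range (h.orbit_cont y)
  · have : f ⁻¹' {n} = ∅ := by
      ext z
      simp only [mem_preimage, mem_singleton_iff, mem_empty_iff_false, iff_false]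
      exact fun hz => hn ⟨z, hz⟩
    rw [this]
    exact isPreconnected_empty

/-- compact orbits are stable -/
theorem TFlow.stable [T2Space Y] [LocallyCompactSpace Y] [T2Space N] (h : TFlow φ f) {y0 : Y}
    (hc : IsCompact (f ⁻¹' {f y0})) {O : Set Y} (hO : IsOpen O) (hsub : f ⁻¹' {f y0} ⊆ O) :
    ∃ L : Set Y, IsCompact L ∧ L ⊆ O ∧ ∀ᶠ n in 𝓝 (f y0), f ⁻¹' {n} ⊆ L := by
  obtain ⟨L, hL, h1, h2⟩ := exists_compact_between hc hO hsub
  refine ⟨L, hL, h2, ?_⟩
  have hfr : IsCompact (frontier (interior L)) := by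
    apply hL.of_isClosed_subset isClosed_frontier
    exact (frontier_subset_closure.trans (closure_mono interior_subset)).trans
      hL.isClosed.closure_subset
  have hcl : IsClosed (f '' frontier (interior L)) := (hfr.image h.fcont).isClosed
  have hnot : f y0 ∉ f '' frontier (interior L) := by
    rintro ⟨z, hz, hzf⟩
    have : z ∈ interior L := h1 hzf
    have hfe := (isOpen_interior (s := L)).frontier_eq
    rw [hfe] at hz
    exact hz.2 this
  have e1 : ∀ᶠ n in 𝓝 (f y0), n ∉ f '' frontier (interior L) := hcl.isOpen_compl.mem_nhds hnot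
  have e2 : ∀ᶠ n in 𝓝 (f y0), n ∈ f '' interior L :=
    (h.fopen _ isOpen_interior).mem_nhds ⟨y0, h1 rfl, rfl⟩
  filter_upwards [e1, e2] with n hn1 hn2
  obtain ⟨z, hz, rfl⟩ := hn2
  by_contra hcon
  obtain ⟨w, hw, hwL⟩ := not_subset.1 hcon
  have hfe := (isOpen_interior (s := L)).frontier_eq
  have hcov : f ⁻¹' {f z} ⊆ interior L ∪ (closure (interior L))ᶜ := by
    intro v hv
    by_contra hv'
    simp only [mem_union, mem_compl_iff, not_or, not_not] at hv'
    exact hn1 ⟨v, by rw [hfe]; exact ⟨hv'.2, hv'.1⟩, hv⟩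
  obtain ⟨v, -, hv1, hv2⟩ := h.conn (f z) _ _ isOpen_interior isClosed_closure.isOpen_compl hcov
    ⟨z, rfl, hz⟩ ⟨w, hw, fun hw' => hwL (by
      have : closure (interior L) ⊆ L := (closure_mono interior_subset).trans
        hL.isClosed.closure_subset
      exact this hw')⟩
  exact hv2 (subset_closure hv1)

theorem TFlow.compact_nhds [T2Space Y] [LocallyCompactSpace Y] [T2Space N] (h : TFlow φ f) {y0 : Y}
    (hc : IsCompact (f ⁻¹' {f y0})) : ∀ᶠ n in 𝓝 (f y0), IsCompact (f ⁻¹' {n}) := by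
  obtain ⟨L, hL, -, h2⟩ := h.stable hc isOpen_univ (subset_univ _)
  filter_upwards [h2] with n hn
  exact hL.of_isClosed_subset (isClosed_singleton.preimage h.fcont) hn

/-- Baire category: a compact set meets an orbit in a bounded set of times (modulo periods). -/
theorem TFlow.bounded [T2Space Y] [LocallyCompactSpace Y] [T1Space N] (h : TFlow φ f) (x : Y)
    {S : Set Y} (hS : IsCompact S) :
    ∃ M : ℝ, ∀ z ∈ S, f z = f x → ∃ u, |u| ≤ M ∧ φ u x = z := by
  classical
  let F0 : Set Y := f ⁻¹' {f x}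
  have hF0 : IsClosed F0 := isClosed_singleton.preimage h.fcont
  have hlc : LocallyCompactSpace F0 := hF0.isClosedEmbedding_subtypeVal.locallyCompactSpace
  have hx0 : x ∈ F0 := rfl
  have hmem : ∀ (t : ℝ) (z : F0), φ t z ∈ F0 := fun t z => by
    change f (φ t z) = f x
    rw [h.f_flow]
    exact z.2
  let A : ℕ → Set F0 := fun n => {z | ∃ u ∈ Icc (-(n : ℝ)) n, φ u x = z}
  have hAc : ∀ n, IsClosed (A n) := by
    intro n
    have h1 : IsCompact ((fun u => φ u x) '' Icc (-(n : ℝ)) n) :=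
      isCompact_Icc.image (h.orbit_cont x)
    have h2 : A n = Subtype.val ⁻¹' ((fun u => φ u x) '' Icc (-(n : ℝ)) n) := by
      ext z
      simp [A]
    rw [h2]
    exact h1.isClosed.preimage continuous_subtype_val
  have hAu : ⋃ n, A n = univ := by
    rw [eq_univ_iff_forall]
    intro z
    obtain ⟨t, ht⟩ := (h.fibre x z).1 (Eq.symm z.2)
    obtain ⟨n, hn⟩ := exists_nat_ge |t|
    exact mem_iUnion.2 ⟨n, t, abs_le.1 hn, ht⟩
  have hne : Nonempty F0 := ⟨⟨x, hx0⟩⟩
  obtain ⟨n, z0, hz0⟩ := nonempty_interior_of_iUnion_of_closed hAc hAu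
  have hz0A : z0 ∈ A n := interior_subset hz0
  obtain ⟨s, -, hs⟩ := hz0A
  let V : ℝ → Set F0 := fun t => (fun z : F0 => (⟨φ (-t) z, hmem (-t) z⟩ : F0)) ⁻¹' interior (A n)
  have hVo : ∀ t, IsOpen (V t) := by
    intro t
    apply isOpen_interior.preimage
    apply Continuous.subtype_mk
    exact (h.time_cont (-t)).comp continuous_subtype_val
  have hS0 : IsCompact (Subtype.val ⁻¹' S : Set F0) := hF0.isClosedEmbedding_subtypeVal.isCompact_preimage hS
  have hcov : (Subtype.val ⁻¹' S : Set F0) ⊆ ⋃ t, V t := by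
    intro z _
    obtain ⟨w, hw⟩ := (h.fibre x z).1 (Eq.symm z.2)
    refine mem_iUnion.2 ⟨w - s, ?_⟩
    change (⟨φ (-(w - s)) z, hmem _ z⟩ : F0) ∈ interior (A n)
    have : (⟨φ (-(w - s)) z, hmem _ z⟩ : F0) = z0 := by
      apply Subtype.ext
      change φ (-(w - s)) (z : Y) = z0
      rw [← hw, ← h.add, ← hs]
      congr 1
      ring
    rw [this]
    exact hz0
  obtain ⟨I, hI⟩ := hS0.elim_finite_subcover V hVo hcov
  refine ⟨n + ∑ t ∈ I, |t|, ?_⟩
  intro z hz hzx
  have hz' := hI (show (⟨z, hzx⟩ : F0) ∈ _ from hz)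
  simp only [mem_iUnion] at hz'
  obtain ⟨t, htI, ht⟩ := hz'
  obtain ⟨u, hu, hux⟩ := interior_subset ht
  refine ⟨t + u, ?_, ?_⟩
  · have h1 : |t| ≤ ∑ t ∈ I, |t| := Finset.single_le_sum (fun i _ => abs_nonneg i) htI
    have h2 : |u| ≤ n := abs_le.2 hu
    calc |t + u| ≤ |t| + |u| := abs_add_le _ _
      _ ≤ _ := by linarith
  · rw [h.add, hux]
    change φ t (φ (-t) z) = z
    rw [← h.add, add_neg_cancel, h.zero]

theorem TFlow.periodic [T2Space Y] [LocallyCompactSpace Y] [T1Space N] (h : TFlow φ f) {y : Y}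
    (hc : IsCompact (f ⁻¹' {f y})) : ∃ T > 0, φ T y = y := by
  obtain ⟨M, hM⟩ := h.bounded y hc
  obtain ⟨u, hu, hu'⟩ := hM (φ (|M| + 1) y) (h.f_flow _ _) (h.f_flow _ _)
  have hu2 := abs_le.1 hu
  have hM' := le_abs_self M
  refine ⟨|M| + 1 - u, by linarith [hu2.2], ?_⟩
  have h1 : φ (-u) (φ u y) = y := by rw [← h.add, neg_add_cancel, h.zero]
  rw [hu', ← h.add] at h1
  have h2 : |M| + 1 - u = -u + (|M| + 1) := by ring
  rw [h2]
  exact h1

end Pool.Agent.W579.FQ
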