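import Mathlib

set_option autoImplicit false
open Set Topology Filter

namespace Pool.Agent.W579.FQ

/-- the Hopf map, extended quadratically -/
noncomputable def hopf (s : ℂ × ℂ) : ℝ × ℂ :=
  (Complex.normSq s.1 - Complex.normSq s.2, 2 * ((starRingEnd ℂ) s.1 * s.2))

/-- euclidean norm on `ℝ × ℂ` -/
noncomputable def nm (u : ℝ × ℂ) : ℝ := Real.sqrt (u.1 ^ 2 + Complex.normSq u.2)

lemma hopf_cont : Continuous hopf := by
  unfold hopf
  fun_prop

lemma nm_cont : Continuous nm := by
  unfold nm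
  fun_prop

lemma nm_nonneg (u : ℝ × ℂ) : 0 ≤ nm u := Real.sqrt_nonneg _

lemma nm_sq (u : ℝ × ℂ) : nm u ^ 2 = u.1 ^ 2 + (u.2.re ^ 2 + u.2.im ^ 2) := by
  unfold nm
  rw [Real.sq_sqrt (add_nonneg (sq_nonneg _) (Complex.normSq_nonneg _)), Complex.normSq_apply]
  ring

lemma nm_pos {u : ℝ × ℂ} (hu : u ≠ 0) : 0 < nm u := by
  rcases (nm_nonneg u).lt_or_eq with h | h
  · exact h
  · exfalso
    have h1 := nm_sq u
    rw [← h] at h1
    have h2 : u.1 = 0 := by nlinarith [sq_nonneg u.1, sq_nonneg u.2.re, sq_nonneg u.2.im]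
    have h3 : u.2.re = 0 := by nlinarith [sq_nonneg u.1, sq_nonneg u.2.re, sq_nonneg u.2.im]
    have h4 : u.2.im = 0 := by nlinarith [sq_nonneg u.1, sq_nonneg u.2.re, sq_nonneg u.2.im]
    exact hu (Prod.ext h2 (Complex.ext h3 h4))

lemma nm_zero : nm 0 = 0 := by simp [nm]

lemma nm_hopf (s : ℂ × ℂ) : nm (hopf s) = Complex.normSq s.1 + Complex.normSq s.2 := by
  have h0 : 0 ≤ Complex.normSq s.1 + Complex.normSq s.2 :=
    add_nonneg (Complex.normSq_nonneg _) (Complex.normSq_nonneg _)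
  rw [← abs_of_nonneg h0, ← Real.sqrt_sq_eq_abs]
  unfold nm hopf
  congr 1
  simp only [Complex.normSq_apply, Complex.mul_re, Complex.mul_im, Complex.conj_re,
    Complex.conj_im]
  simp
  ring

/-- inner product on `ℝ × ℂ` -/
noncomputable def dotp (u v : ℝ × ℂ) : ℝ := u.1 * v.1 + (u.2.re * v.2.re + u.2.im * v.2.im)

/-- (unnormalised) projection of `s` to the line over `u` -/
noncomputable def prj (u : ℝ × ℂ) (s : ℂ × ℂ) : ℂ × ℂ :=
  (((nm u + u.1 : ℝ) : ℂ) * s.1 + (starRingEnd ℂ) u.2 * s.2,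
    u.2 * s.1 + ((nm u - u.1 : ℝ) : ℂ) * s.2)

/-- the normalisation factor -/
noncomputable def fac (u : ℝ × ℂ) (s : ℂ × ℂ) : ℝ := 2 * (nm u * nm (hopf s) + dotp (hopf s) u)

lemma hopf_prj (u : ℝ × ℂ) (s : ℂ × ℂ) :
    hopf (prj u s) = (fac u s * u.1, ((fac u s : ℝ) : ℂ) * u.2) := by
  have hn := nm_sq u
  unfold fac
  rw [nm_hopf]
  unfold hopf prj dotp
  generalize nm u = n at *
  obtain ⟨a, b⟩ := u
  obtain ⟨z, w⟩ := s
  simp only at hn ⊢
  refine Prod.ext ?_ (Complex.ext ?_ ?_)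
  · simp [Complex.normSq_apply]
    linear_combination (z.re ^ 2 + z.im ^ 2 - w.re ^ 2 - w.im ^ 2) * hn
  · simp [Complex.normSq_apply]
    linear_combination (2 * (z.re * w.re + z.im * w.im)) * hn
  · simp [Complex.normSq_apply]
    linear_combination (2 * (z.re * w.im - z.im * w.re)) * hn

lemma hopf_smul (c : ℝ) (s : ℂ × ℂ) : hopf (c • s) = (c * c) • hopf s := by
  unfold hopf
  refine Prod.ext ?_ (Complex.ext ?_ ?_)
  · simp [Complex.normSq_apply]
    ring
  · simp
    ring
  · simp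
    ring

/-- projection of `s` to the fibre over `u` -/
noncomputable def stp (u : ℝ × ℂ) (s : ℂ × ℂ) : ℂ × ℂ := (1 / Real.sqrt (fac u s)) • prj u s

lemma hopf_stp {u : ℝ × ℂ} {s : ℂ × ℂ} (h : 0 < fac u s) : hopf (stp u s) = u := by
  unfold stp
  rw [hopf_smul, hopf_prj, ← sq, div_pow, Real.sq_sqrt h.le, one_pow]
  have h' : fac u s ≠ 0 := h.ne'
  have h'' : ((fac u s : ℝ) : ℂ) ≠ 0 := by exact_mod_cast h'
  refine Prod.ext ?_ ?_
  · simp only [Prod.smul_fst, smul_eq_mul]
    field_simp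
  · simp only [Prod.smul_snd, Complex.real_smul]
    push_cast
    field_simp

lemma fac_hopf (s : ℂ × ℂ) : fac (hopf s) s = (2 * nm (hopf s)) ^ 2 := by
  unfold fac dotp
  have := nm_sq (hopf s)
  linear_combination (-2) * this

lemma prj_hopf (s : ℂ × ℂ) : prj (hopf s) s = (2 * nm (hopf s)) • s := by
  unfold prj
  rw [nm_hopf]
  unfold hopf
  refine Prod.ext (Complex.ext ?_ ?_) (Complex.ext ?_ ?_) <;>
  · simp [Complex.normSq_apply]
    ring

lemma stp_fix {s : ℂ × ℂ} (h : hopf s ≠ 0) : stp (hopf s) s = s := by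
  have hp := nm_pos h
  unfold stp
  rw [fac_hopf, prj_hopf, Real.sqrt_sq (by positivity), smul_smul, one_div,
    inv_mul_cancel₀ (by positivity), one_smul]

lemma stp_cont {X : Type*} [TopologicalSpace X] {u : X → ℝ × ℂ} {s : X → ℂ × ℂ}
    (hu : Continuous u) (hs : Continuous s) (hpos : ∀ x, 0 < fac (u x) (s x)) :
    Continuous (fun x => stp (u x) (s x)) := by
  have h1 : Continuous (fun x => fac (u x) (s x)) := by
    unfold fac dotp
    have e1 := nm_cont.comp hu
    have e2 := nm_cont.comp (hopf_cont.comp hs)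
    have e3 := hopf_cont.comp hs
    simp only [Function.comp_def] at e1 e2 e3
    fun_prop
  have h2 : Continuous (fun x => prj (u x) (s x)) := by
    unfold prj
    have e1 := nm_cont.comp hu
    simp only [Function.comp_def] at e1
    fun_prop
  unfold stp
  have h3 : Continuous (fun x => 1 / Real.sqrt (fac (u x) (s x))) := by
    apply continuous_const.div (Real.continuous_sqrt.comp h1)
    intro x
    exact (Real.sqrt_pos.2 (hpos x)).ne'
  exact h3.smul h2

lemma exists_hopf {u : ℝ × ℂ} (hu : u ≠ 0) : ∃ s, hopf s = u := by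
  have hp := nm_pos hu
  rcases le_or_gt u.1 0 with h | h
  · refine ⟨stp u (0, 1), hopf_stp ?_⟩
    unfold fac
    rw [nm_hopf]
    simp [hopf, dotp]
    linarith
  · refine ⟨stp u (1, 0), hopf_stp ?_⟩
    unfold fac
    rw [nm_hopf]
    simp [hopf, dotp]
    linarith

section lift

variable {E : Type*} [NormedAddCommGroup E] [NormedSpace ℝ E]

/-- radial retraction to the ball of radius `r` -/
noncomputable def ret (r : ℝ) (x : E) : E := (r / max r ‖x‖) • x

lemma ret_of_le {r : ℝ} {x : E} (hx : ‖x‖ ≤ r) : ret r x = x := by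
  unfold ret
  rcases (norm_nonneg x).trans hx |>.eq_or_lt with h | h
  · rw [← h] at hx
    have : x = 0 := norm_le_zero_iff.1 hx
    simp [this]
  · rw [max_eq_left hx, div_self h.ne', one_smul]

lemma ret_of_ge {r : ℝ} {x : E} (hx : r ≤ ‖x‖) : ret r x = (r / ‖x‖) • x := by
  unfold ret
  rw [max_eq_right hx]

lemma ret_cont {r : ℝ} (hr : 0 ≤ r) : Continuous (ret r : E → E) := by
  rcases hr.eq_or_lt with h | h
  · subst h
    have : (ret 0 : E → E) = fun _ => 0 := by
      funext x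
      simp [ret]
    rw [this]
    exact continuous_const
  · unfold ret
    apply Continuous.smul _ continuous_id
    apply continuous_const.div (by fun_prop)
    intro x
    exact (lt_of_lt_of_le h (le_max_left _ _)).ne'

lemma norm_ret {r : ℝ} (hr : 0 ≤ r) (x : E) : ‖ret r x‖ ≤ r := by
  rcases le_total ‖x‖ r with h | h
  · rw [ret_of_le h]
    exact h
  · rw [ret_of_ge h, norm_smul, Real.norm_of_nonneg (div_nonneg hr (norm_nonneg _))]
    rcases (norm_nonneg x).eq_or_lt with h0 | h0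
    · rw [← h0]
      simpa using hr
    · rw [div_mul_cancel₀ _ h0.ne']

lemma dist_ret {r r' : ℝ} (hr : 0 ≤ r) (hrr : r ≤ r') (x : E) :
    dist (ret r x) (ret r' x) ≤ r' - r := by
  rcases le_total ‖x‖ r with h | h
  · rw [ret_of_le h, ret_of_le (h.trans hrr), dist_self]
    linarith
  · rcases (norm_nonneg x).eq_or_lt with h0 | h0
    · have : x = 0 := norm_eq_zero.1 h0.symm
      simp [this, ret, hrr]
    · rcases le_total ‖x‖ r' with h1 | h1
      · rw [ret_of_ge h, ret_of_le h1, dist_eq_norm]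
        have : (r / ‖x‖) • x - x = (r / ‖x‖ - 1) • x := by rw [sub_smul, one_smul]
        rw [this, norm_smul, Real.norm_eq_abs, abs_sub_comm, abs_of_nonneg (by
          rw [sub_nonneg, div_le_one h0]; exact h), sub_mul, div_mul_cancel₀ _ h0.ne', one_mul]
        linarith
      · rw [ret_of_ge h, ret_of_ge h1, dist_eq_norm, ← sub_smul, norm_smul, ← sub_div,
          Real.norm_eq_abs, abs_div, abs_norm, div_mul_cancel₀ _ h0.ne', abs_sub_comm,
          abs_of_nonneg (by linarith)]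

/-- Every continuous map of a finite dimensional space to the punctured space `ℝ × ℂ` lifts
through the Hopf map. -/
theorem exists_lift [ProperSpace E] {p : E → ℝ × ℂ} (hp : Continuous p) (h0 : ∀ x, p x ≠ 0) :
    ∃ s : E → ℂ × ℂ, Continuous s ∧ ∀ x, hopf (s x) = p x := by
  classical
  let G : E × E → ℝ := fun q => nm (p q.2) * nm (p q.1) + dotp (p q.1) (p q.2)
  have hG : Continuous G := by
    have e1 : Continuous (fun q : E × E => nm (p q.2)) := nm_cont.comp (hp.comp continuous_snd)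
    have e2 : Continuous (fun q : E × E => nm (p q.1)) := nm_cont.comp (hp.comp continuous_fst)
    simp only [G, dotp]
    fun_prop
  have hGd : ∀ x, 0 < G (x, x) := by
    intro x
    have h1 := nm_pos (h0 x)
    have h2 := nm_sq (p x)
    simp only [G, dotp]
    nlinarith
  have hδ : ∀ m : ℕ, ∃ δ : ℝ, 0 < δ ∧ δ ≤ 1 ∧ ∀ x y : E, ‖x‖ ≤ m + 1 → ‖y‖ ≤ m + 1 →
      dist x y ≤ δ → 0 < G (x, y) := by
    intro m
    have hK : IsCompact (Metric.closedBall (0 : E) (m + 1)) := isCompact_closedBall _ _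
    have hne : (Metric.closedBall (0 : E) (m + 1)).Nonempty :=
      ⟨0, by simp; positivity⟩
    obtain ⟨x0, -, hx0⟩ := hK.exists_isMinOn hne
      (f := fun x => G (x, x)) (hG.comp (by fun_prop)).continuousOn
    have huc := (hK.prod hK).uniformContinuousOn_of_continuous hG.continuousOn
    rw [Metric.uniformContinuousOn_iff] at huc
    obtain ⟨δ, hδ, hδ'⟩ := huc (G (x0, x0)) (hGd x0)
    refine ⟨min (δ / 2) 1, by positivity, min_le_right _ _, ?_⟩
    intro x y hx hy hxy
    have hx' : x ∈ Metric.closedBall (0 : E) (m + 1) := by simpa using hx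
    have hy' : y ∈ Metric.closedBall (0 : E) (m + 1) := by simpa using hy
    have h1 := hδ' (x, y) ⟨hx', hy'⟩ (x, x) ⟨hx', hx'⟩ (by
      rw [Prod.dist_eq]
      simp only [dist_self]
      rw [max_eq_right dist_nonneg, dist_comm]
      have := min_le_left (δ / 2) 1
      linarith)
    have h2 : G (x0, x0) ≤ G (x, x) := hx0 hx'
    rw [Real.dist_eq] at h1
    have := (abs_lt.1 h1).1
    linarith
  choose δ hδ0 hδ1 hδG using hδ
  -- the radii
  let r : ℕ → ℝ := fun k => Nat.rec 0 (fun _ t => t + δ ⌈t⌉₊) k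
  have hr0 : r 0 = 0 := rfl
  have hrs : ∀ k, r (k + 1) = r k + δ ⌈r k⌉₊ := fun k => rfl
  have hrm : StrictMono r := strictMono_nat_of_lt_succ (fun k => by
    rw [hrs]
    linarith [hδ0 ⌈r k⌉₊])
  have hrn : ∀ k, 0 ≤ r k := fun k => by
    rw [← hr0]
    exact hrm.monotone (Nat.zero_le k)
  have hrt : ∀ M : ℝ, ∃ k, M ≤ r k := by
    intro M
    apply Classical.byContradiction
    intro hcon
    push Not at hcon
    obtain ⟨d, hd, hd'⟩ : ∃ d > 0, ∀ m ≤ ⌈M⌉₊, d ≤ δ m := by
      have hne : (Finset.range (⌈M⌉₊ + 1)).Nonempty := ⟨0, by simp⟩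
      obtain ⟨m0, -, hm0⟩ := Finset.exists_min_image (Finset.range (⌈M⌉₊ + 1)) δ hne
      exact ⟨δ m0, hδ0 m0, fun m hm => hm0 m (Finset.mem_range.2 (by omega))⟩
    have hk : ∀ k : ℕ, k * d ≤ r k := by
      intro k
      induction k with
      | zero => simp [hr0]
      | succ k ih =>
        rw [hrs]
        have h1 := hd' ⌈r k⌉₊ (Nat.ceil_le_ceil (hcon k).le)
        push_cast
        linarith
    obtain ⟨k, hk'⟩ := exists_nat_gt (M / d)
    rw [div_lt_iff₀ hd] at hk'
    linarith [hk k, hcon k]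
  -- the successive lifts
  obtain ⟨s0, hs0⟩ := exists_hopf (h0 0)
  let ψ : ℕ → E → ℂ × ℂ := fun k =>
    Nat.rec (fun _ => s0) (fun k t => fun x => stp (p (ret (r (k + 1)) x)) (t x)) k
  have hψ0 : ψ 0 = fun _ => s0 := rfl
  have hψs : ∀ k x, ψ (k + 1) x = stp (p (ret (r (k + 1)) x)) (ψ k x) := fun k x => rfl
  have hfac : ∀ k, (∀ x, hopf (ψ k x) = p (ret (r k) x)) →
      ∀ x, 0 < fac (p (ret (r (k + 1)) x)) (ψ k x) := by
    intro k hk x
    unfold fac
    rw [hk x]
    have h1 := hδG ⌈r k⌉₊ (ret (r k) x) (ret (r (k + 1)) x)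
      ((norm_ret (hrn k) x).trans (by linarith [Nat.le_ceil (r k)]))
      ((norm_ret (hrn (k + 1)) x).trans (by
        rw [hrs]
        linarith [Nat.le_ceil (r k), hδ1 ⌈r k⌉₊]))
      ((dist_ret (hrn k) (hrm.monotone (Nat.le_succ k)) x).trans (by
        rw [hrs]
        linarith))
    simp only [G] at h1
    linarith
  have hinv : ∀ k, Continuous (ψ k) ∧ ∀ x, hopf (ψ k x) = p (ret (r k) x) := by
    intro k
    induction k with
    | zero =>
      refine ⟨by rw [hψ0]; exact continuous_const, fun x => ?_⟩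
      rw [hψ0, hr0]
      simp [ret, hs0]
    | succ k ih =>
      have hf := hfac k ih.2
      refine ⟨?_, fun x => ?_⟩
      · have : ψ (k + 1) = fun x => stp (p (ret (r (k + 1)) x)) (ψ k x) := rfl
        rw [this]
        exact stp_cont (hp.comp (ret_cont (hrn (k + 1)))) ih.1 hf
      · rw [hψs]
        exact hopf_stp (hf x)
  have hstab : ∀ k x, ‖x‖ ≤ r k → ψ (k + 1) x = ψ k x := by
    intro k x hx
    have h1 : hopf (ψ k x) = p x := by rw [(hinv k).2, ret_of_le hx]
    have h2 : ret (r (k + 1)) x = x := ret_of_le (hx.trans (hrm.monotone (Nat.le_succ k)))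
    rw [hψs, h2, ← h1]
    exact stp_fix (by rw [h1]; exact h0 x)
  have hstab' : ∀ k l x, ‖x‖ ≤ r k → k ≤ l → ψ l x = ψ k x := by
    intro k l x hx hkl
    induction l, hkl using Nat.le_induction with
    | base => rfl
    | succ l hkl ih => rw [hstab l x (hx.trans (hrm.monotone hkl)), ih]
  have hstab'' : ∀ k l x, ‖x‖ ≤ r k → ‖x‖ ≤ r l → ψ l x = ψ k x := by
    intro k l x hk hl
    rcases le_total k l with h | h
    · exact hstab' k l x hk h
    · exact (hstab' l k x hl h).symm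
  choose κ hκ using hrt
  refine ⟨fun x => ψ (κ ‖x‖) x, ?_, ?_⟩
  · rw [continuous_iff_continuousAt]
    intro x0
    have h1 : ContinuousAt (ψ (κ (‖x0‖ + 1))) x0 := (hinv _).1.continuousAt
    apply h1.congr
    have h2 : {x : E | ‖x‖ < ‖x0‖ + 1} ∈ 𝓝 x0 :=
      (isOpen_lt continuous_norm continuous_const).mem_nhds (by
        change ‖x0‖ < ‖x0‖ + 1
        linarith)
    filter_upwards [h2] with x hx
    have hx' : ‖x‖ < ‖x0‖ + 1 := hx
    exact hstab'' _ _ x (hκ _) (hx'.le.trans (hκ _))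
  · intro x
    change hopf (ψ (κ ‖x‖) x) = p x
    rw [(hinv _).2, ret_of_le (hκ _)]

end lift

end Pool.Agent.W579.FQ
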