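import Pool.Agent.W579.FQ.Strand2
import Pool.Agent.W579.FQ.BData
import Pool.Agent.W579.FQ.Eta

set_option autoImplicit false
open Set Topology Filter
open Pool.Agent.H289R3.FQ

namespace Pool.Agent.W579.FQ

variable {X F : Type*} [TopologicalSpace X] [TopologicalSpace F] {φ : ℝ → X → X} {f : X → F}

lemma periodic_floor {e : (Fin 5 → ℝ) → F} (hper : ∀ y j, e (y + ee j) = e y) (y : Fin 5 → ℝ) :
    e (fun j => Int.fract (y j)) = e y := by
  have h1 : ∀ (s : Finset (Fin 5)) (z : Fin 5 → ℝ), e (z + ∑ j ∈ s, (⌊y j⌋ : ℤ) • ee j) = e z := by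
    intro s
    induction s using Finset.induction_on with
    | empty => intro z; simp
    | insert a s ha ih =>
      intro z
      rw [Finset.sum_insert ha, ← add_assoc, ih]
      have hp : Function.Periodic e (ee a) := fun w => hper w a
      exact (hp.zsmul ⌊y a⌋) z
  rw [← h1 Finset.univ]
  congr 1
  funext i
  have h2 : ∀ j : Fin 5, ((⌊y j⌋ : ℤ) • ee j) i = if i = j then ((⌊y j⌋ : ℤ) : ℝ) else 0 := by
    intro j
    rw [Pi.smul_apply, ee, zsmul_eq_mul, Pi.single_apply]
    split_ifs <;> simp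
  rw [Pi.add_apply, Finset.sum_apply]
  simp only [h2, Finset.sum_ite_eq, Finset.mem_univ, if_true]
  exact Int.fract_add_floor (y i)

lemma exists_cut [T2Space X] [LocallyCompactSpace X] (h : TFlow φ f)
    {e : (Fin 5 → ℝ) → F} (he : Continuous e) (hper : ∀ y j, e (y + ee j) = e y)
    (hsurj : ∀ y, ∃ x, f x = e y) :
    ∃ χ : X → ℝ, Continuous χ ∧ (∀ x, 0 ≤ χ x) ∧ (∀ x, χ x ≤ 1) ∧ HasCompactSupport χ ∧
      ∀ y, ∃ x, f x = e y ∧ χ x = 1 := by
  have hc : IsCompact (e '' Icc 0 1) := isCompact_Icc.image he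
  obtain ⟨K, hK, hK'⟩ : ∃ K : Set X, IsCompact K ∧ ∀ m ∈ e '' Icc 0 1, ∃ x ∈ K, f x = m := by
    refine hc.induction_on (p := fun s => ∃ K : Set X, IsCompact K ∧ ∀ m ∈ s, ∃ x ∈ K, f x = m)
      ?_ ?_ ?_ ?_
    · exact ⟨∅, isCompact_empty, by simp⟩
    · rintro s t hst ⟨K, hK, hK'⟩
      exact ⟨K, hK, fun m hm => hK' m (hst hm)⟩
    · rintro s t ⟨K, hK, hK'⟩ ⟨K2, hK2, hK2'⟩
      refine ⟨K ∪ K2, hK.union hK2, ?_⟩
      rintro m (hm | hm)
      · obtain ⟨x, hx, hxm⟩ := hK' m hm
        exact ⟨x, Or.inl hx, hxm⟩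
      · obtain ⟨x, hx, hxm⟩ := hK2' m hm
        exact ⟨x, Or.inr hx, hxm⟩
    · rintro _ ⟨y, -, rfl⟩
      obtain ⟨x, hx⟩ := hsurj y
      obtain ⟨K, hK, hxK⟩ := exists_compact_mem_nhds x
      refine ⟨f '' K, mem_nhdsWithin_of_mem_nhds ?_, K, hK, ?_⟩
      · rw [← hx]
        exact h.fopen.image_mem_nhds hxK
      · rintro _ ⟨z, hz, rfl⟩
        exact ⟨z, hz, rfl⟩
  obtain ⟨χ, h1, -, h3, h4⟩ := exists_continuous_one_zero_of_isCompact hK isClosed_empty
    (disjoint_empty K)
  refine ⟨χ, χ.continuous, fun x => (h4 x).1, fun x => (h4 x).2, h3, fun y => ?_⟩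
  obtain ⟨x, hx, hxm⟩ := hK' (e (fun j => Int.fract (y j)))
    ⟨_, ⟨fun j => Int.fract_nonneg _, fun j => (Int.fract_lt_one _).le⟩, rfl⟩
  refine ⟨x, ?_, h1 hx⟩
  rw [hxm, periodic_floor hper]

/-- the main contradiction -/
theorem no_flow (hTorus : TaskTorus) {E : Type*} [NormedAddCommGroup E] [NormedSpace ℝ E]
    [ProperSpace E] {F : Type*} [TopologicalSpace F] [T2Space F] {φ : ℝ → E → E} {f : E → F}
    (h : TFlow φ f) (q : F → Fin 3 → ℝ × ℂ) (hq : Continuous q) (hq0 : ∀ n i, q n i ≠ 0)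
    {e : (Fin 5 → ℝ) → F} (he : Continuous e) (hper : ∀ y j, e (y + ee j) = e y)
    (hsurj : ∀ y, ∃ x, f x = e y) (hq1 : ∀ y, q (e y) 0 = HH (y 0) (y 1))
    (hq2 : ∀ y, q (e y) 1 = HH (y 2) (y 4)) (hq3 : ∀ y, q (e y) 2 = HH (y 2) (y 3)) : False := by
  classical
  have hlift : ∀ i, ∃ s : E → ℂ × ℂ, Continuous s ∧ ∀ x, hopf (s x) = q (f x) i := fun i =>
    exists_lift ((continuous_apply i).comp (hq.comp h.fcont)) (fun x => hq0 _ _)
  choose s hsc hs using hlift
  -- the pulled back flow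
  have h' := h.pull he
  have : LocallyCompactSpace (PB f e) :=
    ((isClosed_eq (h.fcont.comp continuous_fst) (he.comp continuous_snd)).isClosedEmbedding_subtypeVal
      ).locallyCompactSpace
  have hclE : Topology.IsClosedEmbedding (Subtype.val : PB f e → E × (Fin 5 → ℝ)) :=
    (isClosed_eq (h.fcont.comp continuous_fst) (he.comp continuous_snd)).isClosedEmbedding_subtypeVal
  let C : Set (Fin 5 → ℝ) := {y | ¬ IsCompact (f ⁻¹' {e y})}
  have hCcl : IsClosed C := by
    rw [← isOpen_compl_iff, isOpen_iff_mem_nhds]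
    intro y hy
    have hyc : IsCompact (f ⁻¹' {e y}) := not_not.1 hy
    obtain ⟨x, hx⟩ := hsurj y
    rw [← hx] at hyc
    have h1 := h.compact_nhds hyc
    rw [hx] at h1
    filter_upwards [he.continuousAt.eventually h1] with z hz hz'
    exact hz' hz
  have hCp : ∀ y j, y ∈ C ↔ y + ee j ∈ C := by
    intro y j
    simp only [C, mem_ofPred_eq, hper]
  obtain ⟨χ, hχc, hχ0, hχ1, hχs, hχe⟩ := exists_cut h he hper hsurj
  have hcut : IsCut (PBflow h e) (fun p : PB f e => p.1.2) C (fun p => χ p.1.1) := by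
    refine ⟨hχc.comp (continuous_fst.comp continuous_subtype_val), fun p => hχ0 _, fun p => hχ1 _,
      ?_, ?_, ?_⟩
    · intro n
      refine ⟨Metric.closedBall n 1, Metric.closedBall_mem_nhds n one_pos,
        Subtype.val ⁻¹' (tsupport χ ×ˢ Metric.closedBall n 1),
        hclE.isCompact_preimage (hχs.isCompact.prod (isCompact_closedBall n 1)), ?_⟩
      intro p hp hp'
      exact ⟨subset_closure hp', hp⟩
    · intro n _
      obtain ⟨x, hx, hx1⟩ := hχe n
      exact ⟨⟨(x, n), hx⟩, rfl, hx1⟩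
    · intro p hp t ht
      by_contra hne
      have h1 : φ t p.1.1 = p.1.1 := congrArg (fun r : PB f e => r.1.1) ht
      have h2 := h.compact_of_periodic hne h1
      rw [p.2] at h2
      exact hp h2
  let D : PB f e → T1 := fun p => aa (s 0 p.1.1) (p.1.2 0) (p.1.2 1)
  have hD : Continuous D := by
    apply aa_cont ((hsc 0).comp (continuous_fst.comp continuous_subtype_val))
      ((continuous_apply 0).comp (continuous_snd.comp continuous_subtype_val))
      ((continuous_apply 1).comp (continuous_snd.comp continuous_subtype_val))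
    intro p
    simp only [Function.comp_apply]
    rw [hs, p.2, hq1]
  obtain ⟨L, hL⟩ := h'.exists_var hD
  have hW := strand_continuousOn hcut h' hD hL
  refine hTorus C hCcl hCp (strand (PBflow h e) (fun p : PB f e => p.1.2) (fun p => χ p.1.1) D L)
    hW ?_ ?_
  · intro y hy j
    obtain ⟨x, hx⟩ := hsurj y
    let p : PB f e := ⟨(x, y), hx⟩
    let p' : PB f e := ⟨(x, y + ee j), by rw [hper]; exact hx⟩
    have e1 : strand (PBflow h e) (fun p : PB f e => p.1.2) (fun p => χ p.1.1) D L y =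
        D p + ((avg (PBflow h e) (fun p : PB f e => χ p.1.1) L p : ℝ) : T1) :=
      strand_eq hcut h' hL (y := p) hy
    have e2 : strand (PBflow h e) (fun p : PB f e => p.1.2) (fun p => χ p.1.1) D L (y + ee j) =
        D p' + ((avg (PBflow h e) (fun p : PB f e => χ p.1.1) L p' : ℝ) : T1) :=
      strand_eq hcut h' hL (y := p') ((hCp y j).1 hy)
    have hDt : ∀ t, D (PBflow h e t p') = D (PBflow h e t p) +
        (if j = 1 then ((y 0 : ℝ) : T1) else 0) := by
      intro t
      have hhs : hopf (s 0 (φ t x)) = HH (y 0) (y 1) := by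
        rw [hs, h.f_flow, hx, hq1]
      change aa (s 0 (φ t x)) ((y + ee j) 0) ((y + ee j) 1) = aa (s 0 (φ t x)) (y 0) (y 1) + _
      simp only [Pi.add_apply, ee]
      by_cases hj0 : j = 0
      · subst hj0
        have e1 : (Pi.single 0 1 : Fin 5 → ℝ) 1 = 0 := by simp
        rw [Pi.single_eq_same, e1, add_zero, if_neg (by decide), add_zero, aa_left]
      · have e0 : (Pi.single j 1 : Fin 5 → ℝ) 0 = 0 := by simp [Ne.symm hj0]
        rw [e0, add_zero]
        by_cases hj1 : j = 1
        · subst hj1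
          rw [Pi.single_eq_same, if_pos rfl, aa_right hhs]
        · have e1 : (Pi.single j 1 : Fin 5 → ℝ) 1 = 0 := by simp [Ne.symm hj1]
          rw [e1, add_zero, if_neg hj1, add_zero]
    have e3 : avg (PBflow h e) (fun p : PB f e => χ p.1.1) L p' =
        avg (PBflow h e) (fun p : PB f e => χ p.1.1) L p :=
      avg_translate h' hL (fun t => rfl) hDt
    have e4 := hDt 0
    rw [h'.zero, h'.zero] at e4
    rw [e1, e2, e3, e4]
    abel
  · intro δ hδ
    have hcont : ∀ (i : Fin 3) (a b : Fin 5), (∀ y, q (e y) i = HH (y a) (y b)) →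
        ContinuousOn (fun p : E × (Fin 5 → ℝ) => aa (s i p.1) (p.2 a) (p.2 b))
          {p | p.1 ∈ (univ : Set E) ∧ f p.1 = e p.2} := by
      intro i a b hi
      rw [continuousOn_iff_continuous_domRestrict]
      apply aa_cont ((hsc i).comp (continuous_fst.comp continuous_subtype_val))
        ((continuous_apply a).comp (continuous_snd.comp continuous_subtype_val))
        ((continuous_apply b).comp (continuous_snd.comp continuous_subtype_val))
      intro p
      simp only [Function.comp_apply]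
      rw [hs, p.2.2, hi]
    have htr : ∀ (i : Fin 3) (a b : Fin 5), a ≠ b → (∀ y, q (e y) i = HH (y a) (y b)) →
        ∀ x y, x ∈ (univ : Set E) → f x = e y → ∀ j, aa (s i x) ((y + ee j) a) ((y + ee j) b) =
          aa (s i x) (y a) (y b) + (((if j = b then y a else 0 : ℝ)) : T1) := by
      intro i a b hab hi x y _ hxy j
      have hhs : hopf (s i x) = HH (y a) (y b) := by
        rw [hs, hxy, hi]
      simp only [Pi.add_apply, ee]
      by_cases hj0 : j = a
      · subst hj0
        have e1 : (Pi.single j 1 : Fin 5 → ℝ) b = 0 := by simp [Ne.symm hab]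
        rw [Pi.single_eq_same, e1, add_zero, if_neg hab, aa_left]
        simp
      · have e0 : (Pi.single j 1 : Fin 5 → ℝ) a = 0 := by simp [Ne.symm hj0]
        rw [e0, add_zero]
        by_cases hj1 : j = b
        · subst hj1
          rw [Pi.single_eq_same, if_pos rfl, aa_right hhs]
        · have e1 : (Pi.single j 1 : Fin 5 → ℝ) b = 0 := by simp [Ne.symm hj1]
          rw [e1, add_zero, if_neg hj1]
          simp
    obtain ⟨B₀, B₁, g₀, g₁, r, h1, h2, h3, h4, h5, h6, h7⟩ := tbdata h he hper hsurj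
      (O := univ) isOpen_univ (D₁ := fun p => aa (s 1 p.1) (p.2 2) (p.2 4))
      (D₂ := fun p => aa (s 2 p.1) (p.2 2) (p.2 3)) (hcont 1 2 4 hq2) (hcont 2 2 3 hq3)
      (htr 1 2 4 (by decide) hq2) (htr 2 2 3 (by decide) hq3) (K := Cᶜ)
      (fun y hy => ⟨not_not.1 hy, subset_univ _⟩)
    refine ⟨B₀, B₁, g₀, g₁, r, h1, h2, h3, h4, h5, ?_, h7⟩
    intro y hy
    apply h6
    intro hyC
    have := hy y hyC
    rw [dist_self] at this
    linarith

end Pool.Agent.W579.FQ
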