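import Pool.Agent.W579.FQ.Flow
import Pool.Agent.H289R3.FQ.Pull

set_option autoImplicit false
open Set Topology Filter

open Pool.Agent.H289R3.FQ

namespace Pool.Agent.W579.FQ

variable {Y N : Type*} [TopologicalSpace Y] [TopologicalSpace N] {φ : ℝ → Y → Y} {f : Y → N}

theorem TFlow.compact_of_periodic (h : TFlow φ f) {y : Y} {T : ℝ} (hT0 : T ≠ 0)
    (hT : φ T y = y) : IsCompact (f ⁻¹' {f y}) := by
  have hT' : φ |T| y = y := by
    rcases le_total 0 T with h0 | h0
    · rwa [abs_of_nonneg h0]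
    · rw [abs_of_nonpos h0]
      conv_lhs => rw [← hT]
      rw [← h.add, neg_add_cancel, h.zero]
  have hper : Function.Periodic (fun t => φ t y) |T| := by
    intro s
    simp only
    rw [h.add, hT']
  rw [h.fibre_eq]
  have : range (fun t => φ t y) = (fun t => φ t y) '' Icc 0 |T| := by
    apply Subset.antisymm
    · rintro _ ⟨t, rfl⟩
      obtain ⟨s, hs, hs'⟩ := hper.exists_mem_Ico₀ (abs_pos.2 hT0) t
      exact ⟨s, ⟨hs.1, hs.2.le⟩, hs'.symm⟩
    · rintro _ ⟨t, -, rfl⟩
      exact ⟨t, rfl⟩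
  rw [this]
  exact isCompact_Icc.image (h.orbit_cont y)

/-- the pulled back flow -/
def PBflow {N' : Type*} (h : TFlow φ f) (e : N' → N) (t : ℝ) (p : PB f e) : PB f e :=
  ⟨(φ t p.1.1, p.1.2), by rw [h.f_flow]; exact p.2⟩

theorem TFlow.pull {N' : Type*} [TopologicalSpace N'] (h : TFlow φ f) {e : N' → N}
    (he : Continuous e) : TFlow (PBflow h e) (fun p : PB f e => p.1.2) where
  cont := by
    apply Continuous.subtype_mk
    exact (h.cont.comp (continuous_fst.prodMk
      (continuous_fst.comp (continuous_subtype_val.comp continuous_snd)))).prodMk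
      (continuous_snd.comp (continuous_subtype_val.comp continuous_snd))
  zero p := Subtype.ext (Prod.ext (h.zero _) rfl)
  add s t p := Subtype.ext (Prod.ext (h.add _ _ _) rfl)
  fcont := continuous_snd.comp continuous_subtype_val
  fopen := by
    intro O hO
    obtain ⟨O', hO', rfl⟩ := isOpen_induced_iff.1 hO
    rw [isOpen_iff_mem_nhds]
    rintro _ ⟨p, hp, rfl⟩
    obtain ⟨A, B, hA, hB, hpA, hpB, hAB⟩ := isOpen_prod_iff.1 hO' p.1.1 p.1.2 hp
    have h1 : B ∩ e ⁻¹' (f '' A) ∈ 𝓝 p.1.2 :=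
      (hB.inter ((h.fopen A hA).preimage he)).mem_nhds ⟨hpB, p.1.1, hpA, p.2⟩
    filter_upwards [h1] with n hn
    obtain ⟨hn1, q, hq, hqe⟩ := hn
    exact ⟨⟨(q, n), hqe⟩, hAB (Set.mk_mem_prod hq hn1), rfl⟩
  fibre := by
    intro x y
    constructor
    · intro hxy
      have hxy' : x.1.2 = y.1.2 := hxy
      have : f x.1.1 = f y.1.1 := by rw [x.2, y.2, hxy']
      obtain ⟨t, ht⟩ := (h.fibre _ _).1 this
      exact ⟨t, Subtype.ext (Prod.ext ht hxy')⟩
    · rintro ⟨t, rfl⟩
      rfl

/-- restriction of a flow to the part over an open subset of the base -/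
def RSflow (h : TFlow φ f) (B : Set N) (t : ℝ) (p : {y : Y // f y ∈ B}) : {y : Y // f y ∈ B} :=
  ⟨φ t p.1, by rw [h.f_flow]; exact p.2⟩

theorem TFlow.restrict (h : TFlow φ f) {B : Set N} (hB : IsOpen B) :
    TFlow (RSflow h B) (fun p : {y : Y // f y ∈ B} => f p.1) where
  cont := by
    apply Continuous.subtype_mk
    exact h.cont.comp (continuous_fst.prodMk (continuous_subtype_val.comp continuous_snd))
  zero p := Subtype.ext (h.zero _)
  add s t p := Subtype.ext (h.add _ _ _)
  fcont := h.fcont.comp continuous_subtype_val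
  fopen := h.fopen.comp (hB.preimage h.fcont).isOpenMap_subtype_val
  fibre := by
    intro x y
    rw [h.fibre x.1 y.1]
    constructor
    · rintro ⟨t, ht⟩
      exact ⟨t, Subtype.ext ht⟩
    · rintro ⟨t, rfl⟩
      exact ⟨t, rfl⟩

end Pool.Agent.W579.FQ
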