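import Pool.Agent.W579.FQ.Slope

set_option autoImplicit false
open Set Topology Filter MeasureTheory
open Pool.Agent.H289R3.FQ

namespace Pool.Agent.W579.FQ

variable {Y N : Type*} [TopologicalSpace Y] [TopologicalSpace N] {φ : ℝ → Y → Y} {f : Y → N}

/-- the future supremum of `χ` along the orbit -/
noncomputable def fut (φ : ℝ → Y → Y) (χ : Y → ℝ) (y : Y) : ℝ := sSup ((fun s => χ (φ s y)) '' Ici 0)

/-- the weight function -/
noncomputable def gg (m : ℝ) : ℝ := max 0 (m * (1 / 2 - m))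

lemma gg_cont : Continuous gg := by unfold gg; fun_prop

lemma gg_nonneg (m : ℝ) : 0 ≤ gg m := le_max_left _ _

lemma gg_zero : gg 0 = 0 := by simp [gg]

lemma gg_large {m : ℝ} (hm : 1 / 2 ≤ m) : gg m = 0 := by
  unfold gg
  apply max_eq_left
  exact mul_nonpos_of_nonneg_of_nonpos (by linarith) (by linarith)

lemma gg_quarter : gg (1 / 4) = 1 / 16 := by
  unfold gg
  norm_num

/-- the weight, supported on the last strand of an orbit -/
noncomputable def wt (φ : ℝ → Y → Y) (χ : Y → ℝ) (y : Y) : ℝ := gg (fut φ χ y)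

/-- the average of the variation `L` with respect to the weight -/
noncomputable def avg (φ : ℝ → Y → Y) (χ : Y → ℝ) (L : Y → ℝ → ℝ) (y : Y) : ℝ :=
  (∫ t, wt φ χ (φ t y) * L y t) / ∫ t, wt φ χ (φ t y)

/-- a cut-off function for the flow over the set `C` of free orbits -/
structure IsCut (φ : ℝ → Y → Y) (f : Y → N) (C : Set N) (χ : Y → ℝ) : Prop where
  cont : Continuous χ
  nonneg : ∀ y, 0 ≤ χ y
  le_one : ∀ y, χ y ≤ 1
  supp : ∀ n : N, ∃ B ∈ 𝓝 n, ∃ S : Set Y, IsCompact S ∧ ∀ y, f y ∈ B → χ y ≠ 0 → y ∈ S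
  one : ∀ n ∈ C, ∃ y, f y = n ∧ χ y = 1
  free : ∀ y, f y ∈ C → ∀ t, φ t y = y → t = 0

section

variable {C : Set N} {χ : Y → ℝ}

lemma IsCut.inj (hχ : IsCut φ f C χ) (h : TFlow φ f) {y : Y} (hy : f y ∈ C) {a b : ℝ}
    (hab : φ a y = φ b y) : a = b := by
  have h1 : φ (a - b) (φ b y) = φ b y := by rw [← h.add, sub_add_cancel, hab]
  have := hχ.free (φ b y) (by rw [h.f_flow]; exact hy) _ h1
  linarith

lemma IsCut.bounded [T2Space Y] [LocallyCompactSpace Y] [T1Space N] (hχ : IsCut φ f C χ)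
    (h : TFlow φ f) {y : Y} (hy : f y ∈ C) : ∃ T : ℝ, ∀ t, χ (φ t y) ≠ 0 → |t| ≤ T := by
  obtain ⟨B, hB, S, hS, hSB⟩ := hχ.supp (f y)
  obtain ⟨M, hM⟩ := h.bounded y hS
  refine ⟨M, fun t ht => ?_⟩
  obtain ⟨u, hu, hu'⟩ := hM (φ t y) (hSB _ (by rw [h.f_flow]; exact mem_of_mem_nhds hB) ht)
    (h.f_flow _ _)
  rw [← hχ.inj h hy hu']
  exact hu

lemma IsCut.bdd (hχ : IsCut φ f C χ) (y : Y) : BddAbove ((fun s => χ (φ s y)) '' Ici 0) :=
  ⟨1, by rintro _ ⟨s, -, rfl⟩; exact hχ.le_one _⟩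

lemma IsCut.le_fut (hχ : IsCut φ f C χ) (y : Y) {s : ℝ} (hs : 0 ≤ s) : χ (φ s y) ≤ fut φ χ y :=
  le_csSup (hχ.bdd y) ⟨s, hs, rfl⟩

/-- the supremum over `[t, T]` of `χ` along the orbit -/
noncomputable def MT (φ : ℝ → Y → Y) (χ : Y → ℝ) (T : ℝ) (p : Y × ℝ) : ℝ :=
  sSup ((fun s : ℝ => χ (φ (p.2 + s * (T - p.2)) p.1)) '' Icc 0 1)

lemma MT_cont (hχ : IsCut φ f C χ) (h : TFlow φ f) (T : ℝ) : Continuous (MT φ χ T) := by
  unfold MT
  apply isCompact_Icc.continuous_sSup
  exact hχ.cont.comp (h.cont.comp (by fun_prop :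
    Continuous fun p : (Y × ℝ) × ℝ => (p.1.2 + p.2 * (T - p.1.2), p.1.1)))

lemma fut_eq_MT (hχ : IsCut φ f C χ) (h : TFlow φ f) {T : ℝ} {y : Y}
    (hT : ∀ s, T < s → χ (φ s y) = 0) {t : ℝ} (ht : t ≤ T) :
    fut φ χ (φ t y) = MT φ χ T (y, t) := by
  have hc : Continuous (fun s : ℝ => χ (φ (t + s * (T - t)) y)) :=
    hχ.cont.comp ((h.orbit_cont y).comp (by fun_prop))
  have hbdd : BddAbove ((fun s : ℝ => χ (φ (t + s * (T - t)) y)) '' Icc 0 1) :=
    (isCompact_Icc.image hc).bddAbove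
  unfold MT fut
  apply le_antisymm
  · apply csSup_le (Set.Nonempty.image _ ⟨0, self_mem_Ici⟩)
    rintro _ ⟨s, hs, rfl⟩
    simp only
    rw [← h.add]
    rcases le_or_gt (s + t) T with h1 | h1
    · rcases eq_or_lt_of_le ht with h2 | h2
      · have hs0 : s = 0 := le_antisymm (by rw [h2] at h1; linarith) hs
        apply le_csSup hbdd
        refine ⟨0, by simp, ?_⟩
        simp [hs0]
      · apply le_csSup hbdd
        have h3 : 0 < T - t := by linarith
        refine ⟨s / (T - t), ⟨div_nonneg hs h3.le, ?_⟩, ?_⟩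
        · rw [div_le_one h3]
          linarith
        · simp only
          rw [div_mul_cancel₀ _ h3.ne', add_comm]
    · rw [hT _ h1]
      refine le_trans (hχ.nonneg _) (le_csSup hbdd ⟨0, by simp, rfl⟩)
  · apply csSup_le (Set.Nonempty.image _ ⟨0, by simp⟩)
    rintro _ ⟨s, hs, rfl⟩
    simp only
    have h1 : φ (t + s * (T - t)) y = φ (s * (T - t)) (φ t y) := by
      rw [← h.add, add_comm]
    rw [h1]
    exact hχ.le_fut _ (mul_nonneg hs.1 (by linarith))

lemma fut_zero {T : ℝ} {y : Y} (h : TFlow φ f)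
    (hT : ∀ s, T < s → χ (φ s y) = 0) {t : ℝ} (ht : T < t) : fut φ χ (φ t y) = 0 := by
  unfold fut
  have : (fun s => χ (φ s (φ t y))) '' Ici 0 = {0} := by
    ext x
    simp only [mem_image, mem_Ici, mem_singleton_iff]
    constructor
    · rintro ⟨s, hs, rfl⟩
      rw [← h.add]
      exact hT _ (by linarith)
    · rintro rfl
      exact ⟨0, le_rfl, by rw [← h.add]; exact hT _ (by linarith)⟩
  rw [this, csSup_singleton]

lemma fut_cont [T2Space Y] [LocallyCompactSpace Y] [T1Space N] (hχ : IsCut φ f C χ)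
    (h : TFlow φ f) {y : Y} (hy : f y ∈ C) : Continuous (fun t => fut φ χ (φ t y)) := by
  obtain ⟨T, hT⟩ := hχ.bounded h hy
  rw [continuous_iff_continuousAt]
  intro t0
  set T' := max T (t0 + 1) with hT'
  have hT2 : ∀ s, T' < s → χ (φ s y) = 0 := by
    intro s hs
    by_contra hne
    have h1 := hT s hne
    have h2 : T < s := lt_of_le_of_lt (le_max_left _ _) hs
    linarith [le_abs_self s]
  have hc : Continuous (fun t => MT φ χ T' (y, t)) := (MT_cont hχ h T').comp (by fun_prop)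
  apply hc.continuousAt.congr
  have hlt : t0 < T' := lt_of_lt_of_le (lt_add_one t0) (le_max_right _ _)
  filter_upwards [Iio_mem_nhds hlt] with t ht
  exact (fut_eq_MT hχ h hT2 (le_of_lt ht)).symm

lemma wt_cont [T2Space Y] [LocallyCompactSpace Y] [T1Space N] (hχ : IsCut φ f C χ)
    (h : TFlow φ f) {y : Y} (hy : f y ∈ C) : Continuous (fun t => wt φ χ (φ t y)) :=
  gg_cont.comp (fut_cont hχ h hy)

lemma wt_supp [T2Space Y] [LocallyCompactSpace Y] [T1Space N] (hχ : IsCut φ f C χ)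
    (h : TFlow φ f) {y : Y} (hy : f y ∈ C) : HasCompactSupport (fun t => wt φ χ (φ t y)) := by
  obtain ⟨T, hT⟩ := hχ.bounded h hy
  obtain ⟨z, hz, hz1⟩ := hχ.one _ hy
  obtain ⟨t1, rfl⟩ := (h.fibre y z).1 hz.symm
  apply HasCompactSupport.intro (isCompact_Icc (a := t1) (b := T))
  intro t ht
  by_cases h1 : t ≤ t1
  · have h2 : χ (φ (t1 - t) (φ t y)) ≤ fut φ χ (φ t y) := hχ.le_fut _ (by linarith)
    rw [← h.add, sub_add_cancel, hz1] at h2
    exact gg_large (by linarith)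
  · have h3 : T < t := by
      by_contra h4
      exact ht ⟨by linarith, by linarith⟩
    have hT2 : ∀ s, T < s → χ (φ s y) = 0 := by
      intro s hs
      by_contra hne
      linarith [hT s hne, le_abs_self s]
    unfold wt
    rw [fut_zero h hT2 h3, gg_zero]

lemma wt_pos [T2Space Y] [LocallyCompactSpace Y] [T1Space N] (hχ : IsCut φ f C χ)
    (h : TFlow φ f) {y : Y} (hy : f y ∈ C) : 0 < ∫ t, wt φ χ (φ t y) := by
  obtain ⟨T, hT⟩ := hχ.bounded h hy
  obtain ⟨z, hz, hz1⟩ := hχ.one _ hy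
  obtain ⟨t1, rfl⟩ := (h.fibre y z).1 hz.symm
  have hT2 : ∀ s, T < s → χ (φ s y) = 0 := by
    intro s hs
    by_contra hne
    linarith [hT s hne, le_abs_self s]
  have h1 : 1 ≤ fut φ χ (φ t1 y) := by
    have := hχ.le_fut (φ t1 y) (le_refl 0)
    rw [h.zero, hz1] at this
    exact this
  have h2 : fut φ χ (φ (max T t1 + 1) y) = 0 :=
    fut_zero h hT2 (lt_of_le_of_lt (le_max_left _ _) (lt_add_one _))
  have hc := fut_cont hχ h hy
  have hle : t1 ≤ max T t1 + 1 := (le_max_right T t1).trans (lt_add_one _).le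
  obtain ⟨t, -, ht⟩ := intermediate_value_Icc' hle hc.continuousOn
    (show (1 / 4 : ℝ) ∈ _ by rw [h2]; exact ⟨by norm_num, by linarith⟩)
  apply (wt_cont hχ h hy).integral_pos_of_hasCompactSupport_nonneg_nonzero (wt_supp hχ h hy)
    (fun t => gg_nonneg _) (x := t)
  unfold wt
  simp only at ht
  rw [ht, gg_quarter]
  norm_num

lemma avg_shift [T2Space Y] [LocallyCompactSpace Y] [T1Space N] (hχ : IsCut φ f C χ)
    (h : TFlow φ f) {D : Y → T1} {L : Y → ℝ → ℝ} (hL : IsVar φ D L) {y : Y} (hy : f y ∈ C)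
    (s : ℝ) : avg φ χ L (φ s y) = avg φ χ L y - L y s := by
  have hLc : Continuous (L y) := hL.cont.comp (by fun_prop : Continuous fun s : ℝ => (y, s))
  have hw := wt_cont hχ h hy
  have hs := wt_supp hχ h hy
  have hpos := wt_pos hχ h hy
  have e1 : ∫ t, wt φ χ (φ t (φ s y)) = ∫ t, wt φ χ (φ t y) := by
    have : (fun t => wt φ χ (φ t (φ s y))) = fun t => (fun u => wt φ χ (φ u y)) (t + s) := by
      funext t
      simp only [h.add]
    rw [this]
    exact integral_add_right_eq_self (μ := volume) (fun u => wt φ χ (φ u y)) s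
  have e2 : ∫ t, wt φ χ (φ t (φ s y)) * L (φ s y) t =
      (∫ t, wt φ χ (φ t y) * L y t) - L y s * ∫ t, wt φ χ (φ t y) := by
    have h1 : (fun t => wt φ χ (φ t (φ s y)) * L (φ s y) t) =
        fun t => (fun u => wt φ χ (φ u y) * L y u - L y s * wt φ χ (φ u y)) (t + s) := by
      funext t
      simp only
      rw [h.add, var_add hL h y t s]
      ring
    rw [h1, integral_add_right_eq_self (fun u => wt φ χ (φ u y) * L y u - L y s * wt φ χ (φ u y)) s,
      integral_sub, integral_const_mul]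
    · exact (hw.mul hLc).integrable_of_hasCompactSupport hs.mul_right
    · exact (continuous_const.mul hw).integrable_of_hasCompactSupport hs.mul_left
  unfold avg
  rw [e1, e2]
  field_simp

end

end Pool.Agent.W579.FQ
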