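import Pool.Agent.W579.FQ.Strand

set_option autoImplicit false
open Set Topology Filter MeasureTheory
open Pool.Agent.H289R3.FQ

namespace Pool.Agent.W579.FQ

variable {Y N : Type*} [TopologicalSpace Y] [TopologicalSpace N] {φ : ℝ → Y → Y} {f : Y → N}
  {C : Set N} {χ : Y → ℝ}

/-- numerator over a bounded time interval -/
noncomputable def nu (φ : ℝ → Y → Y) (χ : Y → ℝ) (L : Y → ℝ → ℝ) (T : ℝ) (y : Y) : ℝ :=
  ∫ t in (0 : ℝ)..T, gg (MT φ χ T (y, t)) * L y t

/-- denominator over a bounded time interval -/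
noncomputable def de (φ : ℝ → Y → Y) (χ : Y → ℝ) (T : ℝ) (y : Y) : ℝ :=
  ∫ t in (0 : ℝ)..T, gg (MT φ χ T (y, t))

lemma integral_eq_interval (hχ : IsCut φ f C χ) (h : TFlow φ f) {T : ℝ} {y : Y}
    (hy : 1 / 2 ≤ χ y) (hT : ∀ s, T ≤ s → χ (φ s y) = 0) (l : ℝ → ℝ) :
    ∫ t, wt φ χ (φ t y) * l t = ∫ t in (0 : ℝ)..T, gg (MT φ χ T (y, t)) * l t := by
  have hT0 : 0 < T := by
    by_contra hcon
    have := hT 0 (by linarith)
    rw [h.zero] at this
    linarith
  rw [intervalIntegral.integral_of_le hT0.le]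
  rw [← setIntegral_eq_integral_of_forall_compl_eq_zero (s := Ioc 0 T)]
  · apply setIntegral_congr_fun measurableSet_Ioc
    intro t ht
    simp only [wt]
    rw [fut_eq_MT hχ h (fun s hs => hT s hs.le) ht.2]
  · intro t ht
    by_cases h1 : t ≤ 0
    · have h2 : χ (φ (-t) (φ t y)) ≤ fut φ χ (φ t y) := hχ.le_fut _ (by linarith)
      rw [← h.add, neg_add_cancel, h.zero] at h2
      rw [wt, gg_large (by linarith), zero_mul]
    · have h3 : T < t := by
        by_contra h4
        exact ht ⟨by linarith, by linarith⟩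
      rw [wt, fut_zero h (fun s hs => hT s hs.le) h3, gg_zero, zero_mul]

lemma avg_eq (hχ : IsCut φ f C χ) (h : TFlow φ f) {L : Y → ℝ → ℝ} {T : ℝ} {y : Y}
    (hy : 1 / 2 ≤ χ y) (hT : ∀ s, T ≤ s → χ (φ s y) = 0) :
    avg φ χ L y = nu φ χ L T y / de φ χ T y := by
  have e1 := integral_eq_interval hχ h hy hT (L y)
  have e2 := integral_eq_interval hχ h hy hT (fun _ => 1)
  simp only [mul_one] at e2
  unfold avg nu de
  rw [e1, e2]

lemma nu_cont [FirstCountableTopology Y] (hχ : IsCut φ f C χ) (h : TFlow φ f) {D : Y → T1}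
    {L : Y → ℝ → ℝ} (hL : IsVar φ D L) (T : ℝ) : Continuous (nu φ χ L T) := by
  unfold nu
  apply intervalIntegral.continuous_parametric_intervalIntegral_of_continuous'
  exact (gg_cont.comp (MT_cont hχ h T)).mul hL.cont

lemma de_cont [FirstCountableTopology Y] (hχ : IsCut φ f C χ) (h : TFlow φ f) (T : ℝ) :
    Continuous (de φ χ T) := by
  unfold de
  apply intervalIntegral.continuous_parametric_intervalIntegral_of_continuous'
  exact gg_cont.comp (MT_cont hχ h T)

/-- the last point of the orbit with `χ ≥ 1/2` -/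
lemma exists_last [T2Space Y] [LocallyCompactSpace Y] [T1Space N] (hχ : IsCut φ f C χ)
    (h : TFlow φ f) {n : N} (hn : n ∈ C) :
    ∃ p, f p = n ∧ 1 / 2 ≤ χ p ∧ ∀ t > 0, χ (φ t p) < 1 / 2 := by
  obtain ⟨z, hz, hz1⟩ := hχ.one _ hn
  subst hz
  obtain ⟨T, hT⟩ := hχ.bounded h hn
  have hc : Continuous (fun t => χ (φ t z)) := hχ.cont.comp (h.orbit_cont z)
  let A : Set ℝ := {t | 1 / 2 ≤ χ (φ t z)}
  have hA : IsCompact A := by
    apply isCompact_Icc.of_isClosed_subset (isClosed_le continuous_const hc) (s := Icc (-T) T)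
    intro t ht
    have ht' : 1 / 2 ≤ χ (φ t z) := ht
    exact abs_le.1 (hT t (by linarith))
  have hne : A.Nonempty := ⟨0, by
    change 1 / 2 ≤ χ (φ 0 z)
    rw [h.zero, hz1]
    norm_num⟩
  obtain ⟨t0, ht0, hmax⟩ := hA.exists_isGreatest hne
  refine ⟨φ t0 z, h.f_flow _ _, ht0, fun t ht => ?_⟩
  by_contra hcon
  rw [← h.add] at hcon
  have : t + t0 ∈ A := not_lt.1 hcon
  have := hmax this
  linarith

/-- the strand function -/
noncomputable def strand (φ : ℝ → Y → Y) (f : Y → N) (χ : Y → ℝ) (D : Y → T1) (L : Y → ℝ → ℝ)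
    (n : N) : T1 := by
  classical
  exact if hn : ∃ y, f y = n then D hn.choose + ((avg φ χ L hn.choose : ℝ) : T1) else 0

theorem strand_eq [T2Space Y] [LocallyCompactSpace Y] [T1Space N] (hχ : IsCut φ f C χ)
    (h : TFlow φ f) {D : Y → T1} {L : Y → ℝ → ℝ} (hL : IsVar φ D L) {y : Y} (hy : f y ∈ C) :
    strand φ f χ D L (f y) = D y + ((avg φ χ L y : ℝ) : T1) := by
  classical
  have hn : ∃ z, f z = f y := ⟨y, rfl⟩
  unfold strand
  rw [dif_pos hn]
  have hz := hn.choose_spec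
  set z := hn.choose
  obtain ⟨s, hs⟩ := (h.fibre y z).1 hz.symm
  rw [← hs, avg_shift hχ h hL hy s, AddCircle.coe_sub, hL.coe]
  abel

theorem strand_continuousOn [T2Space Y] [LocallyCompactSpace Y] [FirstCountableTopology Y]
    [T2Space N] (hχ : IsCut φ f C χ) (h : TFlow φ f) {D : Y → T1} (hD : Continuous D)
    {L : Y → ℝ → ℝ} (hL : IsVar φ D L) : ContinuousOn (strand φ f χ D L) C := by
  classical
  intro n0 hn0
  rw [ContinuousWithinAt, tendsto_iff_ultrafilter]
  intro g hg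
  have hgC : ∀ᶠ n in (g : Filter N), n ∈ C := hg self_mem_nhdsWithin
  have hgn : (g : Filter N) ≤ 𝓝 n0 := hg.trans nhdsWithin_le_nhds
  -- last points
  let P : N → Y := fun n => if hn : n ∈ C then (exists_last hχ h hn).choose else
    (exists_last hχ h hn0).choose
  have hP : ∀ n ∈ C, f (P n) = n ∧ 1 / 2 ≤ χ (P n) ∧ ∀ t > 0, χ (φ t (P n)) < 1 / 2 := by
    intro n hn
    simp only [P, hn, dif_pos]
    exact (exists_last hχ h hn).choose_spec
  obtain ⟨B, hB, S, hS, hSB⟩ := hχ.supp n0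
  have hgB : ∀ᶠ n in (g : Filter N), n ∈ B := hgn hB
  -- limits of points in the support
  have hlim : ∀ Q : N → Y, (∀ᶠ n in (g : Filter N), f (Q n) = n ∧ χ (Q n) ≠ 0) →
      ∃ q, Tendsto Q g (𝓝 q) ∧ f q = n0 := by
    intro Q hQ
    have hQS : ∀ᶠ n in (g : Filter N), Q n ∈ S := by
      filter_upwards [hQ, hgB] with n hn hn'
      exact hSB _ (by rw [hn.1]; exact hn') hn.2
    obtain ⟨q, -, hq⟩ := hS.ultrafilter_le_nhds (g.map Q) (le_principal_iff.2 hQS)
    refine ⟨q, hq, ?_⟩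
    have h1 : Tendsto (fun n => f (Q n)) g (𝓝 (f q)) := (h.fcont.tendsto q).comp hq
    have h2 : Tendsto (fun n => f (Q n)) g (𝓝 n0) := by
      refine Tendsto.congr' ?_ (show Tendsto (fun n => n) (g : Filter N) (𝓝 n0) from hgn)
      filter_upwards [hQ] with n hn
      exact hn.1.symm
    exact tendsto_nhds_unique h1 h2
  -- bounded strands
  have hT : ∃ T : ℝ, ∀ᶠ n in (g : Filter N), ∀ s, T ≤ s → χ (φ s (P n)) = 0 := by
    by_contra hcon
    push Not at hcon
    have hcon' : ∀ k : ℝ, ∀ᶠ n in (g : Filter N), ∃ s, k ≤ s ∧ χ (φ s (P n)) ≠ 0 := hcon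
    -- almost last times in the support
    have htime : ∀ n ∈ C, ∃ s, χ (φ s (P n)) ≠ 0 ∧ ∀ s', χ (φ s' (P n)) ≠ 0 → s' ≤ s + 1 := by
      intro n hn
      obtain ⟨M, hM⟩ := hχ.bounded h (y := P n) (by rw [(hP n hn).1]; exact hn)
      let A : Set ℝ := {s | χ (φ s (P n)) ≠ 0}
      have hA : BddAbove A := ⟨M, fun s hs => (le_abs_self s).trans (hM s hs)⟩
      have hAne : A.Nonempty := ⟨0, by
        change χ (φ 0 (P n)) ≠ 0
        rw [h.zero]
        linarith [(hP n hn).2.1]⟩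
      obtain ⟨s, hs, hs'⟩ := exists_lt_of_lt_csSup hAne (show sSup A - 1 < sSup A by linarith)
      exact ⟨s, hs, fun s' hs'' => by linarith [le_csSup hA hs'']⟩
    let τ : N → ℝ := fun n => if hn : n ∈ C then (htime n hn).choose else 0
    have hτ : ∀ n ∈ C, χ (φ (τ n) (P n)) ≠ 0 ∧ ∀ s', χ (φ s' (P n)) ≠ 0 → s' ≤ τ n + 1 := by
      intro n hn
      simp only [τ, hn, dif_pos]
      exact (htime n hn).choose_spec
    obtain ⟨q, hq, hqn⟩ := hlim (fun n => φ (τ n) (P n)) (by
      filter_upwards [hgC] with n hn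
      exact ⟨by rw [h.f_flow]; exact (hP n hn).1, (hτ n hn).1⟩)
    obtain ⟨z, hz, hz1⟩ := hχ.one n0 hn0
    obtain ⟨s, rfl⟩ := (h.fibre q z).1 (by rw [hqn, hz])
    have h2 : Tendsto (fun n => χ (φ s (φ (τ n) (P n)))) g (𝓝 1) := by
      rw [← hz1]
      exact ((hχ.cont.comp (h.time_cont s)).tendsto q).comp hq
    have h3 : ∀ᶠ n in (g : Filter N), 1 / 2 < χ (φ s (φ (τ n) (P n))) :=
      h2.eventually (lt_mem_nhds (by norm_num))
    obtain ⟨n, hn1, hn2, s', hs', hs''⟩ := (h3.and (hgC.and (hcon' (1 - s + 1)))).exists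
    rw [← h.add] at hn1
    have h4 := (hτ n hn2).2 s' hs''
    have h5 := (hP n hn2).2.2 (s + τ n) (by linarith)
    linarith
  obtain ⟨T, hT⟩ := hT
  obtain ⟨p, hp, hpn⟩ := hlim P (by
    filter_upwards [hgC] with n hn
    exact ⟨(hP n hn).1, by linarith [(hP n hn).2.1]⟩)
  have hpχ : 1 / 2 ≤ χ p := by
    have h1 : Tendsto (fun n => χ (P n)) g (𝓝 (χ p)) := (hχ.cont.tendsto p).comp hp
    apply ge_of_tendsto h1
    filter_upwards [hgC] with n hn
    exact (hP n hn).2.1
  have hpT : ∀ s, T ≤ s → χ (φ s p) = 0 := by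
    intro s hs
    have h1 : Tendsto (fun n => χ (φ s (P n))) g (𝓝 (χ (φ s p))) :=
      ((hχ.cont.comp (h.time_cont s)).tendsto p).comp hp
    refine tendsto_nhds_unique h1 (Tendsto.congr' ?_ tendsto_const_nhds)
    filter_upwards [hT] with n hn
    exact (hn s hs).symm
  have hpC : f p ∈ C := by rw [hpn]; exact hn0
  have hden : de φ χ T p ≠ 0 := by
    have e2 := integral_eq_interval hχ h hpχ hpT (fun _ => 1)
    simp only [mul_one] at e2
    have := wt_pos hχ h hpC
    unfold de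
    rw [← e2]
    exact this.ne'
  have hval : strand φ f χ D L n0 = D p + ((nu φ χ L T p / de φ χ T p : ℝ) : T1) := by
    rw [← avg_eq hχ h hpχ hpT, ← strand_eq hχ h hL hpC, hpn]
  rw [hval]
  have hcontp : ContinuousAt (fun y => D y + ((nu φ χ L T y / de φ χ T y : ℝ) : T1)) p := by
    apply hD.continuousAt.add
    apply (AddCircle.continuous_mk' (1 : ℝ)).continuousAt.comp
    exact (nu_cont hχ h hL T).continuousAt.div (de_cont hχ h T).continuousAt hden
  refine Tendsto.congr' ?_ (hcontp.tendsto.comp hp)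
  filter_upwards [hgC, hT] with n hn hnT
  have h1 := strand_eq hχ h hL (y := P n) (by rw [(hP n hn).1]; exact hn)
  rw [(hP n hn).1, avg_eq hχ h (hP n hn).2.1 hnT] at h1
  exact h1.symm

/-- behaviour of the average under symmetries -/
theorem avg_translate (h : TFlow φ f) {D : Y → T1} {L : Y → ℝ → ℝ} (hL : IsVar φ D L) {y y' : Y}
    (hχ : ∀ t, χ (φ t y') = χ (φ t y)) {c : T1} (hD : ∀ t, D (φ t y') = D (φ t y) + c) :
    avg φ χ L y' = avg φ χ L y := by
  have hL' : ∀ t, L y' t = L y t := by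
    intro t
    have := lift_unique (K := (univ : Set ℝ)) isPreconnected_univ
      (l := fun s => L y s) (l' := fun s => L y' s)
      (Continuous.continuousOn (hL.cont.comp (by fun_prop : Continuous fun s : ℝ => (y, s))))
      (Continuous.continuousOn (hL.cont.comp (by fun_prop : Continuous fun s : ℝ => (y', s)))) (by
        intro s _
        have h0 := hD 0
        rw [h.zero, h.zero] at h0
        rw [hL.coe, hL.coe, hD s, h0]
        abel) (mem_univ 0) t (mem_univ _)
    simp only [hL.zero, sub_self, add_zero] at this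
    exact this
  have hwt : ∀ t, wt φ χ (φ t y') = wt φ χ (φ t y) := by
    intro t
    unfold wt fut
    congr 3
    funext s
    rw [← h.add, ← h.add, hχ]
  unfold avg
  simp only [hL', hwt]

end Pool.Agent.W579.FQ
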